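import Pool.Agent.Run7.h42.LP.App3

set_option autoImplicit false

/-!
# Joint large deviations of zeta at arbitrary shifts (helper42): the normalising factor is a determinant
-/

namespace Run7.h42.LP

open Finset Filter MeasureTheory Topology Complex
open Pool.Agent.N748.MG Pool.Agent.N748.MJ
open Pool.Agent.N748.MJ.SM (cc)

variable {m : ℕ}

lemma quad_BB (B : Matrix (Fin m) (Fin m) ℝ) (ξ : Fin m → ℝ) :
    ∑ j, ∑ l, ξ j * ξ l * (B.transpose * B) j l = ∑ i, (B.mulVec ξ i) ^ 2 := by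
  have e1 : ∀ j l : Fin m, ξ j * ξ l * (B.transpose * B) j l = ∑ i, (B i j * ξ j) * (B i l * ξ l) := by
    intro j l
    rw [Matrix.mul_apply, Finset.mul_sum]
    refine Finset.sum_congr rfl fun i _ => ?_
    rw [Matrix.transpose_apply]
    ring
  have e2 : ∀ i : Fin m, (B.mulVec ξ i) ^ 2 = ∑ j, ∑ l, (B i j * ξ j) * (B i l * ξ l) := by
    intro i
    rw [sq, Matrix.mulVec, dotProduct, Finset.sum_mul_sum]
  simp_rw [e1, e2]
  rw [Finset.sum_comm (s := Finset.univ (α := Fin m)) (f := fun i j => ∑ l, (B i j * ξ j) * (B i l * ξ l))]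
  refine Finset.sum_congr rfl fun j _ => ?_
  rw [Finset.sum_comm]

open scoped MatrixOrder Matrix.Norms.L2Operator in
lemma exists_B {R : Matrix (Fin m) (Fin m) ℝ} (hR : R.PosDef) :
    ∃ B : Matrix (Fin m) (Fin m) ℝ, R = B.transpose * B := by
  obtain ⟨B, hB⟩ := CStarAlgebra.nonneg_iff_eq_star_mul_self.mp hR.posSemidef.nonneg
  exact ⟨B, by rw [hB, Matrix.star_eq_conjTranspose, Matrix.conjTranspose_eq_transpose_of_trivial]⟩

/-- the Gaussian integral -/
theorem IT_det (R : Matrix (Fin m) (Fin m) ℝ) (hR : R.PosDef) (q : (Fin m → ℝ) → ℝ)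
    (hq : ∀ ξ, q ξ = ∑ j, ∑ l, ξ j * ξ l * R j l) :
    IT q = Real.sqrt (4 * Real.pi) ^ m / Real.sqrt R.det := by
  obtain ⟨B, hB⟩ := exists_B hR
  have hdet : R.det = B.det ^ 2 := by
    rw [hB, Matrix.det_mul, Matrix.det_transpose, sq]
  have hpos := hR.det_pos
  have hB0 : B.det ≠ 0 := by
    intro h
    rw [hdet, h] at hpos
    norm_num at hpos
  have hsq : Real.sqrt R.det = |B.det| := by rw [hdet, Real.sqrt_sq_eq_abs]
  have e1 : ∀ ξ : Fin m → ℝ, Real.exp (-(q ξ / 4)) =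
      (fun y : Fin m → ℝ => Real.exp (-(1 / 4 * ∑ j, y j ^ 2))) (Matrix.toLin' B ξ) := by
    intro ξ
    simp only
    rw [hq, hB, quad_BB, Matrix.toLin'_apply]
    congr 1
    ring
  unfold IT
  simp_rw [e1]
  have hmeas : Measurable (Matrix.toLin' B : (Fin m → ℝ) → (Fin m → ℝ)) :=
    (LinearMap.continuous_on_pi (Matrix.toLin' B)).measurable
  have hcont : Continuous (fun y : Fin m → ℝ => Real.exp (-(1 / 4 * ∑ j, y j ^ 2))) := by fun_prop
  rw [← integral_map hmeas.aemeasurable hcont.aestronglyMeasurable, Real.map_matrix_volume_pi_eq_smul_volume_pi hB0,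
    integral_smul_measure, gs_val]
  rw [ENNReal.toReal_ofReal (abs_nonneg _), hsq, abs_inv, smul_eq_mul]
  rw [show Real.pi / (1 / 4) = 4 * Real.pi by ring]
  field_simp

/-- the normalising factor -/
theorem AN_det (R : Matrix (Fin m) (Fin m) ℝ) (hR : R.PosDef) (q : (Fin m → ℝ) → ℝ)
    (hq : ∀ ξ, q ξ = ∑ j, ∑ l, ξ j * ξ l * R j l) :
    AN q = Real.sqrt Real.pi ^ m * Real.sqrt R.det := by
  unfold AN
  rw [IT_det R hR q hq]
  have hpos := hR.det_pos
  have hs : 0 < Real.sqrt R.det := Real.sqrt_pos.2 hpos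
  have h2 : Real.sqrt (4 * Real.pi) = 2 * Real.sqrt Real.pi := by
    rw [Real.sqrt_mul (by norm_num), show (4:ℝ) = 2 ^ 2 by norm_num, Real.sqrt_sq (by norm_num)]
  have hp : 0 < Real.sqrt Real.pi := Real.sqrt_pos.2 Real.pi_pos
  rw [h2]
  have h3 : (2 * Real.pi) ^ m = (2 * Real.sqrt Real.pi) ^ m * Real.sqrt Real.pi ^ m := by
    rw [← mul_pow]
    congr 1
    rw [mul_assoc, Real.mul_self_sqrt Real.pi_pos.le]
  rw [h3]
  field_simp

/-- a quantitatively positive form has a positive definite matrix -/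
theorem posDef_of {R : Matrix (Fin m) (Fin m) ℝ} (hs : ∀ j l, R j l = R l j) {L : ℝ} (hL : 0 < L)
    (hq : ∀ ξ : Fin m → ℝ, L * ∑ j, ξ j ^ 2 ≤ ∑ j, ∑ l, ξ j * ξ l * R j l) : R.PosDef := by
  refine Matrix.PosDef.of_dotProduct_mulVec_pos ?_ ?_
  · ext j l
    rw [Matrix.conjTranspose_apply, star_trivial, hs]
  · intro x hx
    have e : star x ⬝ᵥ R.mulVec x = ∑ j, ∑ l, x j * x l * R j l := by
      rw [star_trivial, dotProduct]
      refine Finset.sum_congr rfl fun j _ => ?_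
      rw [Matrix.mulVec, dotProduct, Finset.mul_sum]
      exact Finset.sum_congr rfl fun l _ => by ring
    rw [e]
    refine lt_of_lt_of_le ?_ (hq x)
    apply mul_pos hL
    obtain ⟨j, hj⟩ : ∃ j, x j ≠ 0 := by
      by_contra hcon
      push Not at hcon
      exact hx (funext hcon)
    exact Finset.sum_pos' (fun i _ => sq_nonneg _) ⟨j, Finset.mem_univ j, by positivity⟩

/-- the covariances are logarithms of absolute values -/
theorem RL_log (hZ : S_LZB) {δ : ℝ} (h0 : 0 < δ) (h1 : δ ≤ 1 / 16) (h : Fin m → ℝ) (j l : Fin m) :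
    RL δ h j l = Real.log ‖riemannZeta (((1 + 2 * δ : ℝ) : ℂ) + ((h j - h l : ℝ) : ℂ) * I)‖ := by
  unfold RL
  have h2 := (hZ δ h0 h1 (h j - h l)).2
  rw [← h2, Complex.norm_exp, Real.log_exp]

end Run7.h42.LP
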