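import Pool.Agent.Run7.h42.LP.App6

set_option autoImplicit false

/-!
# Joint large deviations of zeta at arbitrary shifts (helper42): plain forms
-/

namespace Run7.h42.LP

open Finset Filter MeasureTheory Topology Complex
open Pool.Agent.N748.MG Pool.Agent.N748.MJ
open Pool.Agent.N748.MJ.SM (cc)

variable {m : ℕ}

/-- `log |ζ(1/2 + δ + i (t + h j))|` -/
noncomputable def LX (δ : ℝ) (h : Fin m → ℝ) (t : ℝ) (j : Fin m) : ℝ :=
  Real.log ‖riemannZeta (1 / 2 + δ + (t + h j) * I)‖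

/-- the matrix of the `log |ζ(1 + 2δ + i (h j - h l))|` -/
noncomputable def RM (δ : ℝ) (h : Fin m → ℝ) : Matrix (Fin m) (Fin m) ℝ :=
  Matrix.of fun j l => Real.log ‖riemannZeta (1 + 2 * δ + (h j - h l) * I)‖

lemma RM_eq (hZ : S_LZB) {δ : ℝ} (h0 : 0 < δ) (h1 : δ ≤ 1 / 16) (h : Fin m → ℝ) :
    RM δ h = Matrix.of fun j l => RL δ h j l := by
  ext j l
  simp only [RM, Matrix.of_apply]
  rw [RL_log hZ h0 h1]
  push_cast
  rfl

lemma RM_mulVec (hZ : S_LZB) {δ : ℝ} (h0 : 0 < δ) (h1 : δ ≤ 1 / 16) (h k : Fin m → ℝ) (j : Fin m) :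
    (RM δ h).mulVec k j = me δ h k j := by
  rw [RM_eq hZ h0 h1]
  unfold me
  rw [Matrix.mulVec, dotProduct]
  exact Finset.sum_congr rfl fun l _ => mul_comm _ _

lemma RM_dot (hZ : S_LZB) {δ : ℝ} (h0 : 0 < δ) (h1 : δ ≤ 1 / 16) (h k : Fin m → ℝ) :
    k ⬝ᵥ (RM δ h).mulVec k = qf δ h k := by
  rw [dotProduct, ← sum_me']
  exact Finset.sum_congr rfl fun j _ => by rw [RM_mulVec hZ h0 h1]

lemma LX_XV {δ : ℝ} (h k : Fin m → ℝ) (t : ℝ) (j : Fin m) : LX δ h t j - me δ h k j = XV δ h k t j := by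
  unfold LX XV mz pw
  push_cast
  rfl

lemma AN_RM (hZ : S_LZB) {δ c : ℝ} (h0 : 0 < δ) (h1 : δ ≤ 1 / 16) (hc : 0 < c) (h : Fin m → ℝ)
    (hq : ∀ ξ : Fin m → ℝ, c * (Real.log (1 / δ) * ∑ j, ξ j ^ 2) ≤ qf δ h ξ) :
    AN (qf δ h) = Real.sqrt Real.pi ^ m * Real.sqrt (RM δ h).det ∧ 0 < Real.sqrt (RM δ h).det := by
  have hL := log_inv_ge h0 h1
  have hpd : (RM δ h).PosDef := by
    rw [RM_eq hZ h0 h1]
    refine posDef_of (fun j l => ?_) (mul_pos hc (by linarith : 0 < Real.log (1 / δ))) fun ξ => ?_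
    · simp only [Matrix.of_apply]
      exact RL_symm h0 h j l
    · have := hq ξ
      rw [mul_assoc]
      exact this
  refine ⟨AN_det _ hpd _ fun ξ => ?_, Real.sqrt_pos.2 hpd.det_pos⟩
  rw [RM_eq hZ h0 h1]
  rfl

lemma int_OI {T : ℝ} (hT : 0 ≤ T) {f : ℝ → Fin m → ℝ} (hf : Measurable f) (k b : Fin m → ℝ) :
    ∫ t in (0:ℝ)..T, OI k b (f t) = (volume {t : ℝ | 0 ≤ t ∧ t ≤ T ∧ ∀ j, 0 < k j * (f t j + b j)}).toReal := by
  set A : Set ℝ := {t | ∀ j, 0 < k j * (f t j + b j)} with hA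
  have hAm : MeasurableSet A := by
    have e : A = ⋂ j, {t | 0 < k j * (f t j + b j)} := by
      ext t
      simp [hA]
    rw [e]
    refine MeasurableSet.iInter fun j => measurableSet_lt measurable_const ?_
    exact measurable_const.mul (((measurable_pi_apply j).comp hf).add_const _)
  have e1 : (fun t => OI k b (f t)) = A.indicator (fun _ => (1:ℝ)) := by
    funext t
    rw [OI_eq, Set.indicator]
    by_cases hh : ∀ j, 0 < k j * (f t j + b j)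
    · rw [if_pos hh, if_pos (by exact hh)]
    · rw [if_neg hh, if_neg (by exact hh)]
  rw [e1, intervalIntegral.integral_of_le hT, ← integral_Icc_eq_integral_Ioc, setIntegral_indicator hAm,
    setIntegral_const, smul_eq_mul, mul_one, measureReal_def]
  congr 2
  ext t
  simp only [hA, Set.mem_inter_iff, Set.mem_Icc, Set.mem_ofPred_eq]
  tauto

/-- the plain form with a general test function -/
theorem plain1 (hJ : S_JM) (hP : S_POSV) (hZ : S_LZB) (hE : Run7.h291.WN.S_EQC) {d : ℝ → ℝ} (hd : Ad d)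
    {h : ℝ → Fin m → ℝ} (hh : ∀ᶠ T : ℝ in atTop, ∀ j, |h T j| ≤ Real.sqrt T) {c : ℝ} (hc : 0 < c)
    (hq : ∀ᶠ T : ℝ in atTop, ∀ ξ : Fin m → ℝ, c * Real.log (1 / d T) * ∑ j, ξ j ^ 2 ≤
      ξ ⬝ᵥ (RM (d T) (h T)).mulVec ξ)
    (k : Fin m → ℝ) (g : (Fin m → ℝ) → ℝ) (S : Set (Fin m → ℝ)) (hS : volume S = 0) (hg : Measurable g)
    (hgc : ∀ x, x ∉ S → ContinuousAt g x) (M : ℝ) (hM : ∀ x, |g x| ≤ M)
    (hM2 : ∀ x, |g x| * ∏ j, (1 + x j ^ 2) ≤ M * Real.exp (2 * ∑ j, k j * x j)) :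
    Tendsto (fun T : ℝ => Real.sqrt Real.pi ^ m * Real.sqrt (RM (d T) (h T)).det *
      Real.exp (k ⬝ᵥ (RM (d T) (h T)).mulVec k) / arith k (h T) *
      ((1 / T) * ∫ t in (0:ℝ)..T, g (fun j => LX (d T) (h T) t j - (RM (d T) (h T)).mulVec k j))) atTop
      (𝓝 (∫ x : Fin m → ℝ, Real.exp (-(2 * ∑ j, k j * x j)) * g x)) := by
  have hsm : ∀ᶠ T : ℝ in atTop, 0 < d T ∧ d T ≤ 1 / 16 := by
    filter_upwards [hd.pos, hd.t0.eventually_le_const (show (0 : ℝ) < 1 / 16 by norm_num)] with T a b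
    exact ⟨a, b⟩
  have hh' : ∀ᶠ T : ℝ in atTop, ∀ j, |h T j| ≤ T ^ ((1:ℝ) / 2) := by
    filter_upwards [hh] with T hT j
    rw [← Real.sqrt_eq_rpow]
    exact hT j
  have hq' : ∀ᶠ T : ℝ in atTop, ∀ ξ : Fin m → ℝ, c * (Real.log (1 / d T) * ∑ j, ξ j ^ 2) ≤ qf (d T) (h T) ξ := by
    filter_upwards [hq, hsm] with T hT hT2 ξ
    rw [← RM_dot hZ hT2.1 hT2.2, ← mul_assoc]
    exact hT ξ
  have e2 : ∀ x : Fin m → ℝ, ∑ j, 2 * k j * x j = 2 * ∑ j, k j * x j := fun x => by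
    rw [Finset.mul_sum]
    exact Finset.sum_congr rfl fun j _ => by ring
  have h1 := ld hJ hP hZ hE hd hh' hc hq' k g S hS hg hgc M hM (fun x => by rw [e2]; exact hM2 x)
  simp_rw [e2] at h1
  refine h1.congr' ?_
  filter_upwards [hsm, hq'] with T hT hqT
  have e9 : ∀ t : ℝ, (fun j => LX (d T) (h T) t j - (RM (d T) (h T)).mulVec k j) = XV (d T) (h T) k t := fun t => by
    funext j
    rw [RM_mulVec hZ hT.1 hT.2, LX_XV]
  simp only [e9]
  rw [(AN_RM hZ hT.1 hT.2 hc (h T) hqT).1, RM_dot hZ hT.1 hT.2, aV_arith]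

/-- the plain form for orthants -/
theorem plain2 (hJ : S_JM) (hP : S_POSV) (hZ : S_LZB) (hE : Run7.h291.WN.S_EQC) {d : ℝ → ℝ} (hd : Ad d)
    {h : ℝ → Fin m → ℝ} (hh : ∀ᶠ T : ℝ in atTop, ∀ j, |h T j| ≤ Real.sqrt T) {c : ℝ} (hc : 0 < c)
    (hq : ∀ᶠ T : ℝ in atTop, ∀ ξ : Fin m → ℝ, c * Real.log (1 / d T) * ∑ j, ξ j ^ 2 ≤
      ξ ⬝ᵥ (RM (d T) (h T)).mulVec ξ)
    (k : ℝ → Fin m → ℝ) {κ K : ℝ} (hκ : 0 < κ) (hk : ∀ T j, κ ≤ |k T j| ∧ |k T j| ≤ K) :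
    Tendsto (fun T : ℝ => ((1 / T) * (volume {t : ℝ | 0 ≤ t ∧ t ≤ T ∧
      ∀ j, 0 < k T j * (LX (d T) (h T) t j - (RM (d T) (h T)).mulVec (k T) j)}).toReal) /
      (arith (k T) (h T) * Real.exp (-(k T ⬝ᵥ (RM (d T) (h T)).mulVec (k T))) /
        (Real.sqrt Real.pi ^ m * Real.sqrt (RM (d T) (h T)).det * ∏ j, (2 * |k T j|)))) atTop (𝓝 1) := by
  have hsm : ∀ᶠ T : ℝ in atTop, 0 < d T ∧ d T ≤ 1 / 16 := by
    filter_upwards [hd.pos, hd.t0.eventually_le_const (show (0 : ℝ) < 1 / 16 by norm_num)] with T a b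
    exact ⟨a, b⟩
  have hh' : ∀ᶠ T : ℝ in atTop, ∀ j, |h T j| ≤ T ^ ((1:ℝ) / 2) := by
    filter_upwards [hh] with T hT j
    rw [← Real.sqrt_eq_rpow]
    exact hT j
  have hq' : ∀ᶠ T : ℝ in atTop, ∀ ξ : Fin m → ℝ, c * (Real.log (1 / d T) * ∑ j, ξ j ^ 2) ≤ qf (d T) (h T) ξ := by
    filter_upwards [hq, hsm] with T hT hT2 ξ
    rw [← RM_dot hZ hT2.1 hT2.2, ← mul_assoc]
    exact hT ξ
  have hkK : ∀ T j, |k T j| ≤ max K 0 := fun T j => (hk T j).2.trans (le_max_left _ _)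
  have h1 := orthV hJ hP hZ hE hd hh' hc hq' k hκ (fun T j => (hk T j).1) hkK (le_max_right _ _)
  refine h1.congr' ?_
  filter_upwards [hsm, hq', eventually_gt_atTop 0] with T hT hqT hT0
  obtain ⟨e1, e2⟩ := AN_RM hZ hT.1 hT.2 hc (h T) hqT
  rw [e1, RM_dot hZ hT.1 hT.2, aV_arith, int_OI hT0.le (XV_meas hT.1 hT.2 (h T) (k T))]
  have e3 : {t : ℝ | 0 ≤ t ∧ t ≤ T ∧ ∀ j, 0 < k T j * (LX (d T) (h T) t j - (RM (d T) (h T)).mulVec (k T) j)} =
      {t : ℝ | 0 ≤ t ∧ t ≤ T ∧ ∀ j, 0 < k T j * (XV (d T) (h T) (k T) t j + (0 : Fin m → ℝ) j)} := by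
    ext t
    simp only [Set.mem_ofPred_eq]
    have : ∀ j, LX (d T) (h T) t j - (RM (d T) (h T)).mulVec (k T) j =
        XV (d T) (h T) (k T) t j + (0 : Fin m → ℝ) j := fun j => by
      rw [RM_mulVec hZ hT.1 hT.2, LX_XV, Pi.zero_apply, add_zero]
    simp_rw [this]
  rw [e3]
  have ha := arith_pos (k T) (h T)
  have hP0 : 0 < ∏ j, (2 * |k T j|) := Finset.prod_pos fun j _ => by
    have := (hk T j).1
    linarith
  have hp : 0 < Real.sqrt Real.pi := Real.sqrt_pos.2 Real.pi_pos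
  rw [Real.exp_neg]
  have hex := Real.exp_pos (qf (d T) (h T) (k T))
  field_simp

/-- fixed distinct shifts -/
theorem plain3 (hJ : S_JM) (hP : S_POSV) (hZ : S_LZB) (hE : Run7.h291.WN.S_EQC) {d : ℝ → ℝ} (hd : Ad d)
    {h : Fin m → ℝ} (hh : Function.Injective h) {k : Fin m → ℝ} (hk : ∀ j, k j ≠ 0) :
    Tendsto (fun T : ℝ => ((1 / T) * (volume {t : ℝ | 0 ≤ t ∧ t ≤ T ∧
      ∀ j, 0 < k j * (LX (d T) h t j - k j * Real.log (1 / (2 * d T)))}).toReal) /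
      (arith k h * (∏ j, ∏ l ∈ univ.erase j, ‖riemannZeta (1 + ((h j - h l : ℝ) : ℂ) * I)‖ ^ (k j * k l)) *
        ∏ j, ((2 * d T) ^ (k j ^ 2) / (2 * |k j| * Real.sqrt (Real.pi * Real.log (1 / (2 * d T))))))) atTop (𝓝 1) := by
  have hsm : ∀ᶠ T : ℝ in atTop, 0 < d T ∧ d T ≤ 1 / 16 := by
    filter_upwards [hd.pos, hd.t0.eventually_le_const (show (0 : ℝ) < 1 / 16 by norm_num)] with T a b
    exact ⟨a, b⟩
  have hbd : ∀ᶠ T : ℝ in atTop, ∀ j, |h j| ≤ T ^ ((1:ℝ) / 2) := by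
    refine eventually_all.2 fun j => ?_
    exact (tendsto_rpow_atTop (by norm_num : (0:ℝ) < 1 / 2)).eventually_ge_atTop _
  have hsep := sep_fixed hZ hh hd
  set β : ℝ → Fin m → ℝ := fun T j => ∑ l, k l * rr h (d T) j l with hβ
  set b : Fin m → ℝ := fun j => ∑ l, k l * ro h j l with hb
  have hβl : ∀ j, Tendsto (fun T => β T j) atTop (𝓝 (b j)) := fun j =>
    tendsto_finsetSum _ fun l _ => (rr_lim hZ hh hd j l).const_mul (k l)
  have h1 := orthB hJ hP hZ hE hd (h := fun _ => h) hbd (by norm_num : (0:ℝ) < 1 / 2) hsep hk hβl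
  have hdet := det_lim hZ hh hd
  have hrs : Tendsto (fun T => Real.exp (∑ j, ∑ l, k j * k l * rr h (d T) j l)) atTop
      (𝓝 (Real.exp (∑ j, ∑ l, k j * k l * ro h j l))) := by
    refine (Real.continuous_exp.tendsto _).comp ?_
    exact tendsto_finsetSum _ fun j _ => tendsto_finsetSum _ fun l _ => (rr_lim hZ hh hd j l).const_mul _
  set E0 : ℝ := Real.exp (∑ j, ∑ l, k j * k l * ro h j l) with hE0
  have hE0p : 0 < E0 := Real.exp_pos _
  have hE : ∏ j, ∏ l ∈ univ.erase j, ‖riemannZeta (1 + ((h j - h l : ℝ) : ℂ) * I)‖ ^ (k j * k l) = E0 := by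
    rw [hE0, Real.exp_sum]
    refine Finset.prod_congr rfl fun j _ => ?_
    rw [Real.exp_sum, ← Finset.prod_erase univ (a := j)]
    · refine Finset.prod_congr rfl fun l hl => ?_
      have hlj : j ≠ l := fun h0 => (Finset.mem_erase.1 hl).1 h0.symm
      unfold ro
      rw [if_neg hlj]
      have hnz : riemannZeta (1 + ((h j - h l : ℝ) : ℂ) * I) ≠ 0 :=
        riemannZeta_ne_zero_of_one_le_re (by simp)
      rw [Real.rpow_def_of_pos (norm_pos_iff.2 hnz), mul_comm]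
    · unfold ro
      rw [if_pos rfl, mul_zero, Real.exp_zero]
  have hlimit : ∏ j, Real.exp (2 * k j * b j) / (2 * |k j|) = E0 ^ 2 / ∏ j, (2 * |k j|) := by
    rw [Finset.prod_div_distrib, ← Real.exp_sum, hE0, ← Real.exp_nat_mul]
    congr 2
    rw [hb]
    push_cast
    rw [Finset.mul_sum]
    refine Finset.sum_congr rfl fun j _ => ?_
    rw [Finset.mul_sum, Finset.mul_sum]
    exact Finset.sum_congr rfl fun l _ => by ring
  rw [hlimit] at h1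
  have hP0 : 0 < ∏ j, (2 * |k j|) := Finset.prod_pos fun j _ => by
    have := abs_pos.2 (hk j)
    linarith
  have ha := arith_pos k h
  have hp : 0 < Real.sqrt Real.pi := Real.sqrt_pos.2 Real.pi_pos
  have h2 := ((h1.div hdet one_ne_zero).div hrs hE0p.ne').mul_const ((∏ j, (2 * |k j|)) / E0)
  have e0 : E0 ^ 2 / (∏ j, (2 * |k j|)) / 1 / E0 * ((∏ j, (2 * |k j|)) / E0) = 1 := by
    field_simp
  rw [e0] at h2
  refine h2.congr' ?_
  filter_upwards [hsm, hsep, eventually_gt_atTop 0, (LL_lim hd).eventually_gt_atTop 0] with T hT hqT hT0 hLT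
  obtain ⟨e1, e2⟩ := AN_RM hZ hT.1 hT.2 (by norm_num : (0:ℝ) < 1 / 2) h hqT
  simp only [Pi.div_apply]
  rw [e1, aV_arith, int_OI hT0.le (XV_meas hT.1 hT.2 h k), hE]
  have e3 : {t : ℝ | 0 ≤ t ∧ t ≤ T ∧ ∀ j, 0 < k j * (LX (d T) h t j - k j * Real.log (1 / (2 * d T)))} =
      {t : ℝ | 0 ≤ t ∧ t ≤ T ∧ ∀ j, 0 < k j * (XV (d T) h k t j + β T j)} := by
    ext t
    simp only [Set.mem_ofPred_eq]
    have : ∀ j, LX (d T) h t j - k j * Real.log (1 / (2 * d T)) = XV (d T) h k t j + β T j := fun j => by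
      rw [← LX_XV, me_LL, hβ]
      unfold LL
      ring
    simp_rw [this]
  rw [e3]
  have e4 : Real.exp (qf (d T) h k) = Real.exp (∑ j, ∑ l, k j * k l * rr h (d T) j l) * (∏ j, (2 * d T) ^ (k j ^ 2))⁻¹ := by
    rw [qf_LL, Real.exp_add, mul_comm]
    congr 1
    rw [← Finset.prod_inv_distrib, Finset.mul_sum, Real.exp_sum]
    refine Finset.prod_congr rfl fun j _ => ?_
    rw [← Real.rpow_neg (by linarith [hT.1]), Real.rpow_def_of_pos (by linarith [hT.1])]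
    unfold LL
    rw [one_div, Real.log_inv]
    congr 1
    ring
  have e5 : ∏ j, ((2 * d T) ^ (k j ^ 2) / (2 * |k j| * Real.sqrt (Real.pi * Real.log (1 / (2 * d T))))) =
      (∏ j, (2 * d T) ^ (k j ^ 2)) / ((∏ j, (2 * |k j|)) * (Real.sqrt Real.pi ^ m * Real.sqrt (LL (d T)) ^ m)) := by
    rw [Finset.prod_div_distrib, Finset.prod_mul_distrib, Finset.prod_const, Finset.card_univ, Fintype.card_fin,
      Real.sqrt_mul Real.pi_pos.le, mul_pow]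
    rfl
  have hX0 : 0 < ∏ j, (2 * d T) ^ (k j ^ 2) := Finset.prod_pos fun j _ => Real.rpow_pos_of_pos (by linarith [hT.1]) _
  have hs0 : 0 < Real.sqrt (LL (d T)) := Real.sqrt_pos.2 hLT
  have hr0 := Real.exp_pos (∑ j, ∑ l, k j * k l * rr h (d T) j l)
  rw [e4, e5, ← RM_eq hZ hT.1 hT.2]
  field_simp

end Run7.h42.LP
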