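import Pool.Agent.Run7.h42.LP.KerC
import Pool.Agent.Run7.h651.WN.LAW2
import Pool.Agent.Run7.h291.WN.Stm3
import Pool.Agent.N748.MG.LD

set_option autoImplicit false

/-!
# Joint large deviations of zeta at arbitrary shifts (helper42): the measures and their characteristic functions
-/

namespace Run7.h42.LP

open Finset Filter MeasureTheory Topology Complex
open Pool.Agent.N748.MG Pool.Agent.N748.MJ

variable {m : ℕ}

/-- the covariances -/
noncomputable def RL (δ : ℝ) (h : Fin m → ℝ) (j l : Fin m) : ℝ := (LZ (1 + 2 * δ) (h j - h l)).re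

lemma RL_symm {δ : ℝ} (h0 : 0 < δ) (h : Fin m → ℝ) (j l : Fin m) : RL δ h j l = RL δ h l j := by
  unfold RL
  rw [show h l - h j = -(h j - h l) by ring, Run7.h651.WN.LZ_conj h0, Complex.conj_re]

/-- the form -/
noncomputable def qf (δ : ℝ) (h ξ : Fin m → ℝ) : ℝ := ∑ j, ∑ l, ξ j * ξ l * RL δ h j l

/-- the means -/
noncomputable def me (δ : ℝ) (h k : Fin m → ℝ) (j : Fin m) : ℝ := ∑ l, k l * RL δ h j l

lemma sum_me (δ : ℝ) (h k ξ : Fin m → ℝ) : ∑ j, ξ j * me δ h k j = ∑ j, ∑ l, ξ j * k l * RL δ h j l := by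
  refine Finset.sum_congr rfl fun j _ => ?_
  unfold me
  rw [Finset.mul_sum]
  exact Finset.sum_congr rfl fun l _ => by ring

lemma sum_me' (δ : ℝ) (h k : Fin m → ℝ) : ∑ j, k j * me δ h k j = qf δ h k := sum_me δ h k k

lemma qf_cont (δ : ℝ) (h : Fin m → ℝ) : Continuous (qf δ h) := by
  unfold qf
  fun_prop

/-- the variables -/
noncomputable def XV (δ : ℝ) (h k : Fin m → ℝ) (t : ℝ) : Fin m → ℝ := fun j => Real.log (mz δ (t + h j)) - me δ h k j

/-- the complex exponents -/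
noncomputable def bb (k ξ : Fin m → ℝ) : Fin m → ℂ := fun j => (k j : ℂ) + ξ j / 2 * I

lemma LM_bb {δ : ℝ} (h0 : 0 < δ) (h k ξ : Fin m → ℝ) :
    LM (bb k ξ) (bb k ξ) h δ = (qf δ h k : ℂ) + ((∑ j, ξ j * me δ h k j : ℝ) : ℂ) * I - (qf δ h ξ / 4 : ℝ) := by
  unfold LM
  rw [Run7.h651.WN.sym_sum h0 h (fun j l => bb k ξ j * bb k ξ l) (fun j l => mul_comm _ _)]
  have e1 : ∀ j l : Fin m, bb k ξ j * bb k ξ l * (((LZ (1 + 2 * δ) (h j - h l)).re : ℝ) : ℂ) =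
      ((k j * k l * RL δ h j l : ℝ) : ℂ) + ((ξ j * k l * RL δ h j l : ℝ) : ℂ) * (I / 2) +
        ((ξ l * k j * RL δ h l j : ℝ) : ℂ) * (I / 2) - ((ξ j * ξ l * RL δ h j l : ℝ) : ℂ) / 4 := by
    intro j l
    rw [RL_symm h0 h l j]
    unfold bb RL
    push_cast
    linear_combination ((ξ j : ℂ) * ξ l * (((LZ (1 + 2 * δ) (h j - h l)).re : ℝ) : ℂ) / 4) * I_sq
  simp_rw [e1]
  simp_rw [Finset.sum_sub_distrib, Finset.sum_add_distrib, ← Finset.sum_mul, ← Finset.sum_div]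
  have e2 : ∑ j, ∑ l, ((ξ l * k j * RL δ h l j : ℝ) : ℂ) = ∑ j, ∑ l, ((ξ j * k l * RL δ h j l : ℝ) : ℂ) :=
    Finset.sum_comm
  rw [e2, sum_me]
  unfold qf
  push_cast
  ring

/-- the density -/
noncomputable def rhoV (δ r T : ℝ) (h k : Fin m → ℝ) (t : ℝ) : ℝ :=
  1 / T * Real.exp (-(qf δ h k)) / r * ∏ j, mz δ (t + h j) ^ (2 * k j)

/-- the measure -/
noncomputable def nuV (δ r T : ℝ) (h k : Fin m → ℝ) (N : Set ℝ) : Measure (Fin m → ℝ) :=
  ((volume.restrict N).withDensity (fun t => ENNReal.ofReal (rhoV δ r T h k t))).map (XV δ h k)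

lemma mz_meas {δ : ℝ} (h0 : 0 < δ) (h1 : δ ≤ 1 / 16) (u : ℝ) : Measurable fun t => mz δ (t + u) :=
  (LD.zc h0 h1).norm.measurable.comp (measurable_id.add_const u)

lemma XV_meas {δ : ℝ} (h0 : 0 < δ) (h1 : δ ≤ 1 / 16) (h k : Fin m → ℝ) : Measurable (XV δ h k) :=
  measurable_pi_lambda _ fun j => (Real.measurable_log.comp (mz_meas h0 h1 (h j))).sub_const _

lemma rhoV_meas {δ : ℝ} (h0 : 0 < δ) (h1 : δ ≤ 1 / 16) (r T : ℝ) (h k : Fin m → ℝ) : Measurable (rhoV δ r T h k) := by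
  unfold rhoV
  exact (Finset.measurable_prod _ fun j _ => (mz_meas h0 h1 (h j)).pow_const (2 * k j)).const_mul _

lemma rhoV_nn {δ r T : ℝ} (hr : 0 < r) (hT : 0 < T) (h k : Fin m → ℝ) (t : ℝ) : 0 ≤ rhoV δ r T h k t := by
  unfold rhoV
  have : 0 ≤ ∏ j, mz δ (t + h j) ^ (2 * k j) := prod_nonneg fun j _ => Real.rpow_nonneg (norm_nonneg _) _
  positivity

theorem int_nuV {E : Type*} [NormedAddCommGroup E] [NormedSpace ℝ E] {δ r T : ℝ}
    (h0 : 0 < δ) (h1 : δ ≤ 1 / 16) (hr : 0 < r) (hT : 0 < T) (h k : Fin m → ℝ) (N : Set ℝ) {f : (Fin m → ℝ) → E}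
    (hf : StronglyMeasurable f) :
    ∫ x, f x ∂(nuV δ r T h k N) = ∫ t in N, rhoV δ r T h k t • f (XV δ h k t) := by
  unfold nuV
  rw [integral_map (XV_meas h0 h1 h k).aemeasurable hf.aestronglyMeasurable]
  have h2 : (fun t => ENNReal.ofReal (rhoV δ r T h k t)) =
      fun t => (((rhoV δ r T h k t).toNNReal : NNReal) : ENNReal) := rfl
  rw [h2, integral_withDensity_eq_integral_smul (rhoV_meas h0 h1 r T h k).real_toNNReal]
  refine integral_congr_ae (Eventually.of_forall fun t => ?_)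
  show (rhoV δ r T h k t).toNNReal • f (XV δ h k t) = rhoV δ r T h k t • f (XV δ h k t)
  rw [NNReal.smul_def, Real.coe_toNNReal _ (rhoV_nn hr hT h k t)]

lemma prod_rpow_exp {δ t : ℝ} (h k : Fin m → ℝ) (hz : ∀ j, 0 < mz δ (t + h j)) :
    ∏ j, mz δ (t + h j) ^ (2 * k j) = Real.exp (∑ j, 2 * k j * Real.log (mz δ (t + h j))) := by
  rw [Real.exp_sum]
  refine prod_congr rfl fun j _ => ?_
  rw [Real.rpow_def_of_pos (hz j)]
  congr 1
  ring

lemma prod_ZZ_exp {δ t : ℝ} (h : Fin m → ℝ) (b : Fin m → ℂ) (hz : ∀ j, 0 < mz δ (t + h j)) :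
    ∏ j, ZZ (riemannZeta (pw δ (t + h j))) (b j) 0 = cexp (∑ j, 2 * b j * (Real.log (mz δ (t + h j)) : ℂ)) := by
  rw [Complex.exp_sum]
  refine prod_congr rfl fun j _ => ?_
  have h2 : ((mz δ (t + h j) : ℝ) : ℂ) ≠ 0 := by exact_mod_cast (hz j).ne'
  show ((mz δ (t + h j) : ℝ) : ℂ) ^ (2 * b j) * _ = _
  rw [zpow_zero, mul_one, Complex.cpow_def_of_ne_zero h2, ← Complex.ofReal_log (hz j).le]
  congr 1
  ring

theorem cf_nuV {δ r T : ℝ} (h0 : 0 < δ) (h1 : δ ≤ 1 / 16) (hr : 0 < r) (hT : 0 < T) (h k ξ : Fin m → ℝ) {N : Set ℝ}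
    (hN : MeasurableSet N) (hnz : ∀ t ∈ N, ∀ j, riemannZeta (pw δ (t + h j)) ≠ 0) :
    cf (nuV δ r T h k N) ξ = ((1 / (T * r) * Real.exp (-(qf δ h ξ / 4)) : ℝ) : ℂ) *
      (cexp (-(LM (bb k ξ) (bb k ξ) h δ)) * ∫ t in N, ∏ j, ZZ (riemannZeta (pw δ (t + h j))) (bb k ξ j) 0) := by
  unfold cf
  rw [int_nuV h0 h1 hr hT h k N (ee_cont2 ξ).stronglyMeasurable, ← integral_const_mul, ← integral_const_mul]
  refine setIntegral_congr_fun hN fun t ht => ?_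
  have hz : ∀ j, 0 < mz δ (t + h j) := fun j => norm_pos_iff.2 (hnz t ht j)
  have hr' : (r : ℂ) ≠ 0 := by exact_mod_cast hr.ne'
  have hT' : (T : ℂ) ≠ 0 := by exact_mod_cast hT.ne'
  show rhoV δ r T h k t • ee ξ (XV δ h k t) = _
  rw [Complex.real_smul, prod_ZZ_exp h _ hz, LM_bb h0]
  unfold rhoV ee
  rw [prod_rpow_exp h k hz]
  have e1 : ∑ j, ξ j * XV δ h k t j = ∑ j, ξ j * Real.log (mz δ (t + h j)) - ∑ j, ξ j * me δ h k j := by
    rw [← Finset.sum_sub_distrib]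
    exact Finset.sum_congr rfl fun j _ => by unfold XV; ring
  have e2 : ∑ j, 2 * bb k ξ j * (Real.log (mz δ (t + h j)) : ℂ) =
      ((∑ j, 2 * k j * Real.log (mz δ (t + h j)) : ℝ) : ℂ) + ((∑ j, ξ j * Real.log (mz δ (t + h j)) : ℝ) : ℂ) * I := by
    push_cast
    rw [Finset.sum_mul, ← Finset.sum_add_distrib]
    refine Finset.sum_congr rfl fun j _ => ?_
    unfold bb
    ring
  rw [e1, e2]
  set A : ℝ := ∑ j, 2 * k j * Real.log (mz δ (t + h j))
  set B : ℝ := ∑ j, ξ j * Real.log (mz δ (t + h j))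
  set C : ℝ := ∑ j, ξ j * me δ h k j
  set q1 : ℝ := qf δ h k
  set q2 : ℝ := qf δ h ξ
  push_cast
  have e3 : (1 / (T : ℂ) * cexp (-(q1 : ℂ)) / r * cexp (A : ℂ)) * cexp (((B : ℂ) - C) * I) =
      (1 / (T * r) : ℂ) * (cexp (-(q1 : ℂ)) * cexp (A : ℂ) * cexp (((B : ℂ) - C) * I)) := by
    field_simp
  have e4 : (1 / ((T : ℂ) * r)) * cexp (-((q2 : ℂ) / 4)) * (cexp (-((q1 : ℂ) + C * I - q2 / 4)) *
      cexp ((A : ℂ) + B * I)) = (1 / ((T : ℂ) * r)) * (cexp (-((q2 : ℂ) / 4)) * cexp (-((q1 : ℂ) + C * I - q2 / 4)) *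
      cexp ((A : ℂ) + B * I)) := by ring
  rw [e3, e4]
  congr 1
  rw [← Complex.exp_add, ← Complex.exp_add, ← Complex.exp_add, ← Complex.exp_add]
  congr 1
  ring

/-- the integral of `exp (-2 k x) g(x)` -/
theorem int_g {δ r T : ℝ} (h0 : 0 < δ) (h1 : δ ≤ 1 / 16) (hr : 0 < r) (hT : 0 < T) (h k : Fin m → ℝ)
    {N : Set ℝ} (hN : MeasurableSet N) (hnz : ∀ t ∈ N, ∀ j, riemannZeta (pw δ (t + h j)) ≠ 0)
    {g : (Fin m → ℝ) → ℝ} (hg : Measurable g) :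
    ∫ x, Real.exp (-(∑ j, 2 * k j * x j)) * g x ∂(nuV δ r T h k N) =
      Real.exp (qf δ h k) / r * ((1 / T) * ∫ t in N, g (XV δ h k t)) := by
  have hm : Measurable fun x : Fin m → ℝ => Real.exp (-(∑ j, 2 * k j * x j)) := by fun_prop
  rw [int_nuV h0 h1 hr hT h k N (f := fun x => Real.exp (-(∑ j, 2 * k j * x j)) * g x) (hm.mul hg).stronglyMeasurable,
    ← integral_const_mul, ← integral_const_mul]
  refine setIntegral_congr_fun hN fun t ht => ?_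
  have hz : ∀ j, 0 < mz δ (t + h j) := fun j => norm_pos_iff.2 (hnz t ht j)
  simp only [smul_eq_mul]
  have e : rhoV δ r T h k t * Real.exp (-(∑ j, 2 * k j * XV δ h k t j)) = Real.exp (qf δ h k) / r * (1 / T) := by
    unfold rhoV
    rw [prod_rpow_exp h k hz]
    have e1 : ∑ j, 2 * k j * XV δ h k t j = ∑ j, 2 * k j * Real.log (mz δ (t + h j)) - 2 * qf δ h k := by
      rw [← sum_me', Finset.mul_sum, ← Finset.sum_sub_distrib]
      exact Finset.sum_congr rfl fun j _ => by unfold XV; ring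
    rw [e1]
    set A : ℝ := ∑ j, 2 * k j * Real.log (mz δ (t + h j))
    set q1 : ℝ := qf δ h k
    have e2 : 1 / T * Real.exp (-q1) / r * Real.exp A * Real.exp (-(A - 2 * q1)) =
        1 / T / r * (Real.exp (-q1) * Real.exp A * Real.exp (-(A - 2 * q1))) := by ring
    rw [e2, ← Real.exp_add, ← Real.exp_add]
    have e3 : -q1 + A + -(A - 2 * q1) = q1 := by ring
    rw [e3]
    field_simp
  calc rhoV δ r T h k t * (Real.exp (-(∑ j, 2 * k j * XV δ h k t j)) * g (XV δ h k t))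
      = (rhoV δ r T h k t * Real.exp (-(∑ j, 2 * k j * XV δ h k t j))) * g (XV δ h k t) := by ring
    _ = _ := by
        rw [e]
        ring

end Run7.h42.LP
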