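import Pool.Agent.Run7.h42.LP.App
import Pool.Agent.N748.MJ.SM

set_option autoImplicit false

/-!
# Joint large deviations of zeta at arbitrary shifts (helper42): the theorem
-/

namespace Run7.h42.LP

open Finset Filter MeasureTheory Topology Complex
open Pool.Agent.N748.MG Pool.Agent.N748.MJ
open Pool.Agent.N748.MJ.SM (cc)

variable {m : ℕ}

/-- the properties of the sets -/
structure Gd (d : ℝ → ℝ) (h : ℝ → Fin m → ℝ) (D : ℝ) (n : ℕ) (T : ℝ) (N : Set ℝ) : Prop where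
  T0 : 0 ≤ T
  meas : MeasurableSet N
  sub : N ⊆ Set.Icc 0 T
  vol : volume (Set.Icc 0 T \ N) ≤ ENNReal.ofReal (d T ^ D * T)
  nz : ∀ t ∈ N, ∀ j, riemannZeta (pw (d T) (t + h T j)) ≠ 0
  est : ∀ b : Fin m → ℂ, (∀ j, ‖b j‖ ≤ n + 1) →
    ‖cexp (-(LM b b (h T) (d T))) * (∫ t in N, ∏ j, ZZ (riemannZeta (pw (d T) (t + h T j))) (b j) 0) -
      T * aV b b (h T)‖ ≤ 1 / ((n : ℝ) + 1) * T

theorem Gd.mono {d : ℝ → ℝ} {h : ℝ → Fin m → ℝ} {D : ℝ} (m' n : ℕ) (T : ℝ) (N : Set ℝ) (hmn : m' ≤ n)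
    (H : Gd d h D n T N) : Gd d h D m' T N := by
  have h1 : (m' : ℝ) ≤ n := by exact_mod_cast hmn
  refine ⟨H.T0, H.meas, H.sub, H.vol, H.nz, fun b hb => (H.est b (fun j => (hb j).trans (by linarith))).trans ?_⟩
  refine mul_le_mul_of_nonneg_right ?_ H.T0
  exact one_div_le_one_div_of_le (by positivity) (by linarith)

theorem exists_sets (hM : S_JM) {d : ℝ → ℝ} (hd : Ad d) (h : ℝ → Fin m → ℝ)
    (hh : ∀ᶠ T : ℝ in atTop, ∀ j, |h T j| ≤ T ^ ((1:ℝ) / 2)) {D : ℝ} (hD : 0 < D) :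
    ∃ N : ℝ → Set ℝ, ∀ n, ∀ᶠ T : ℝ in atTop, Gd d h D n T (N T) := by
  refine LD.diag (Gd d h D) (fun n => ?_) Gd.mono
  have h1 := (hM m (n + 1) D (by positivity) hD (1 / ((n : ℝ) + 1)) (by positivity)).app hd
  filter_upwards [h1, eventually_ge_atTop 0, hh] with T h2 hT hhT
  obtain ⟨N, a1, a2, a3, a4, a5⟩ := h2 (h T) hhT
  refine ⟨N, hT, a1, a2, a3, a4, fun b hb => ?_⟩
  have h3 := a5 b (fun _ => 0) hb (fun _ => by
    rw [Int.cast_zero, abs_zero]
    positivity)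
  rw [SM.sp_zero, SM.sm_zero] at h3
  exact h3

lemma RL_abs (hZ : S_LZB) {δ : ℝ} (h0 : 0 < δ) (h1 : δ ≤ 1 / 16) (h : Fin m → ℝ) (j l : Fin m) :
    |RL δ h j l| ≤ Real.log (1 / δ) := (Complex.abs_re_le_norm _).trans (hZ δ h0 h1 _).1

lemma qf_up (hZ : S_LZB) {δ : ℝ} (h0 : 0 < δ) (h1 : δ ≤ 1 / 16) (h ξ : Fin m → ℝ) :
    qf δ h ξ ≤ ((m : ℝ) + 1) * (Real.log (1 / δ) * ∑ j, ξ j ^ 2) := by
  have hL := log_inv_ge h0 h1
  set L := Real.log (1 / δ) with hLd
  have e1 : qf δ h ξ ≤ ∑ j, ∑ l, |ξ j| * |ξ l| * L := by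
    unfold qf
    refine Finset.sum_le_sum fun j _ => Finset.sum_le_sum fun l _ => ?_
    have h2 := RL_abs hZ h0 h1 h j l
    calc ξ j * ξ l * RL δ h j l ≤ |ξ j * ξ l * RL δ h j l| := le_abs_self _
      _ = |ξ j| * |ξ l| * |RL δ h j l| := by rw [abs_mul, abs_mul]
      _ ≤ |ξ j| * |ξ l| * L := mul_le_mul_of_nonneg_left h2 (by positivity)
  have e2 : ∑ j, ∑ l, |ξ j| * |ξ l| * L = (∑ j, |ξ j|) ^ 2 * L := by
    rw [sq, Finset.sum_mul_sum, Finset.sum_mul]
    refine Finset.sum_congr rfl fun j _ => ?_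
    rw [Finset.sum_mul]
  have e3 : (∑ j, |ξ j|) ^ 2 ≤ (m : ℝ) * ∑ j, ξ j ^ 2 := by
    have := sq_sum_le_card_mul_sum_sq (s := (Finset.univ : Finset (Fin m))) (f := fun j => |ξ j|)
    rw [Finset.card_univ, Fintype.card_fin] at this
    simpa using this
  have e4 : 0 ≤ ∑ j, ξ j ^ 2 := Finset.sum_nonneg fun j _ => sq_nonneg _
  rw [e2] at e1
  refine e1.trans ?_
  have e5 := mul_le_mul_of_nonneg_right e3 (by linarith : 0 ≤ L)
  have e6 : 0 ≤ L * ∑ j, ξ j ^ 2 := by positivity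
  nlinarith

/-- the norms of the exponents -/
lemma bb_norm (k ξ : Fin m → ℝ) (j : Fin m) : ‖bb k ξ j‖ ≤ |k j| + |ξ j| / 2 := by
  unfold bb
  refine (norm_add_le _ _).trans ?_
  rw [Complex.norm_real, norm_mul, Complex.norm_I, mul_one, norm_div, Complex.norm_real,
    Real.norm_eq_abs, Real.norm_eq_abs]
  norm_num

lemma bb_diff (k ξ : Fin m → ℝ) (j : Fin m) : ‖bb k ξ j - cc k j‖ = |ξ j| / 2 := by
  have : bb k ξ j - cc k j = ξ j / 2 * I := by
    unfold bb cc
    ring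
  rw [this, norm_mul, Complex.norm_I, mul_one, norm_div, Complex.norm_real, Real.norm_eq_abs]
  norm_num

/-- the hypotheses of the local limit theorem hold -/
theorem LHnu (hP : S_POSV) (hZ : S_LZB) (hE : Run7.h291.WN.S_EQC) {d : ℝ → ℝ} (hd : Ad d) {h : ℝ → Fin m → ℝ}
    {c : ℝ} (hc : 0 < c)
    (hq : ∀ᶠ T : ℝ in atTop, ∀ ξ : Fin m → ℝ, c * (Real.log (1 / d T) * ∑ j, ξ j ^ 2) ≤ qf (d T) (h T) ξ)
    (k : ℝ → Fin m → ℝ) {K : ℝ} (hkk : ∀ T j, |k T j| ≤ K) (hK0 : 0 ≤ K) {D : ℝ} {N : ℝ → Set ℝ} (hN : ∀ n, ∀ᶠ T : ℝ in atTop, Gd d h D n T (N T))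
    {r : ℝ → ℝ} {c1 : ℝ} (hc1 : 0 < c1) (hr : ∀ T, c1 ≤ r T) (hra : ∀ T, aV (cc (k T)) (cc (k T)) (h T) = r T) :
    LH (fun T => nuV (d T) (r T) T (h T) (k T) (N T)) (fun T => qf (d T) (h T)) (fun T => Real.log (1 / d T)) c
      ((m : ℝ) + 1) := by
  have hsm : ∀ᶠ T : ℝ in atTop, 0 < d T ∧ d T ≤ 1 / 16 ∧ 1 ≤ T := by
    filter_upwards [hd.pos, hd.t0.eventually_le_const (show (0 : ℝ) < 1 / 16 by norm_num),
      eventually_ge_atTop 1] with T a b c
    exact ⟨a, b, c⟩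
  refine ⟨?_, hc, by positivity, ?_, ?_, ?_, ?_⟩
  · -- finite
    obtain ⟨n, hn⟩ := exists_nat_gt (max (K) (1 / c1))
    filter_upwards [hN n, hsm] with T hT hT2
    obtain ⟨h0, h1, hT1⟩ := hT2
    have hT0 : 0 < T := by linarith
    have hr0 : 0 < r T := lt_of_lt_of_le hc1 (hr T)
    have hn1 : 1 / ((n : ℝ) + 1) < r T := by
      have h2 : 1 / c1 < (n : ℝ) + 1 := by linarith [le_max_right (K) (1 / c1)]
      rw [div_lt_iff₀ hc1] at h2
      rw [div_lt_iff₀ (by positivity)]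
      have := mul_le_mul_of_nonneg_right (hr T) (by positivity : (0:ℝ) ≤ (n:ℝ) + 1)
      linarith
    have hci : IntegrableOn (fun t : ℝ => ∏ j, ZZ (riemannZeta (pw (d T) (t + h T j))) (cc (k T) j) 0) (N T) volume := by
      by_contra hni
      have h2 := hT.est (cc (k T)) (fun j => by
        unfold cc
        rw [Complex.norm_real, Real.norm_eq_abs]
        have := hkk T j
        linarith [le_max_left (K) (1 / c1)])
      rw [integral_undef hni, mul_zero, zero_sub, norm_neg, hra, norm_mul, Complex.norm_real,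
        Complex.norm_real, Real.norm_of_nonneg hT0.le, Real.norm_of_nonneg hr0.le] at h2
      nlinarith
    have hre : IntegrableOn (rhoV (d T) (r T) T (h T) (k T)) (N T) volume := by
      have h3 := hci.norm.const_mul (1 / T * Real.exp (-(qf (d T) (h T) (k T))) / r T)
      refine h3.congr ?_
      filter_upwards [ae_restrict_mem hT.meas] with t ht
      unfold rhoV
      congr 1
      rw [norm_prod]
      refine prod_congr rfl fun j _ => ?_
      have hz : 0 < ‖riemannZeta (pw (d T) (t + h T j))‖ := norm_pos_iff.2 (hT.nz t ht j)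
      unfold ZZ cc
      rw [zpow_zero, mul_one, Complex.norm_cpow_eq_rpow_re_of_pos hz]
      unfold mz
      congr 1
      simp
    have h4 : IsFiniteMeasure ((volume.restrict (N T)).withDensity
        (fun t => ENNReal.ofReal (rhoV (d T) (r T) T (h T) (k T) t))) :=
      isFiniteMeasure_withDensity_ofReal hre.2
    show IsFiniteMeasure (nuV (d T) (r T) T (h T) (k T) (N T))
    unfold nuV
    infer_instance
  · -- the parameter
    have h1 : Tendsto d atTop (𝓝[>] 0) := by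
      rw [tendsto_nhdsWithin_iff]
      exact ⟨hd.t0, hd.pos⟩
    have h2 := Real.tendsto_log_nhdsGT_zero.comp h1
    have h3 := tendsto_neg_atBot_atTop.comp h2
    refine h3.congr fun T => ?_
    simp only [Function.comp_apply]
    rw [one_div, Real.log_inv]
  · filter_upwards [hsm, hq] with T hT hqT
    exact ⟨qf_cont _ _, hqT, fun ξ => qf_up hZ hT.1 hT.2.1 (h T) ξ⟩
  · -- the bound
    intro R hR
    obtain ⟨c2, C2, hc2, hC2, hPo⟩ := hP m (K + R) (by linarith)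
    refine ⟨(C2 + 1) / c1, by positivity, ?_⟩
    obtain ⟨n, hn⟩ := exists_nat_gt (K + R)
    filter_upwards [hN n, hsm] with T hT hT2 ξ hξ
    obtain ⟨h0, h1, hT1⟩ := hT2
    have hT0 : 0 < T := by linarith
    have hr0 : 0 < r T := lt_of_lt_of_le hc1 (hr T)
    have hbn : ∀ j, ‖bb (k T) ξ j‖ ≤ K + R := fun j => by
      have h2 := bb_norm (k T) ξ j
      have h3 := hkk T j
      have h4 := hξ j
      linarith [abs_nonneg (ξ j)]
    rw [cf_nuV h0 h1 hr0 hT0 (h T) (k T) ξ hT.meas hT.nz, norm_mul, Complex.norm_real,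
      Real.norm_of_nonneg (by positivity)]
    have h2 := hT.est (bb (k T) ξ) (fun j => (hbn j).trans (by linarith))
    have h3 := (hPo (h T)).1 (bb (k T) ξ) (bb (k T) ξ) hbn hbn
    set W : ℂ := cexp (-(LM (bb (k T) ξ) (bb (k T) ξ) (h T) (d T))) *
      ∫ t in N T, ∏ j, ZZ (riemannZeta (pw (d T) (t + h T j))) (bb (k T) ξ j) 0 with hW
    have h4 : ‖W‖ ≤ (C2 + 1) * T := by
      have h5 : W = (W - T * aV (bb (k T) ξ) (bb (k T) ξ) (h T)) + T * aV (bb (k T) ξ) (bb (k T) ξ) (h T) := by ring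
      rw [h5]
      refine (norm_add_le _ _).trans ?_
      rw [norm_mul, Complex.norm_real, Real.norm_of_nonneg hT0.le]
      have h6 : 1 / ((n:ℝ) + 1) ≤ 1 := by
        rw [div_le_one (by positivity)]
        linarith [(Nat.cast_nonneg n : (0:ℝ) ≤ n)]
      have h7 := mul_le_mul_of_nonneg_right h6 hT0.le
      have h8 := mul_le_mul_of_nonneg_left h3 hT0.le
      linarith
    calc 1 / (T * r T) * Real.exp (-(qf (d T) (h T) ξ / 4)) * ‖W‖
        ≤ 1 / (T * r T) * Real.exp (-(qf (d T) (h T) ξ / 4)) * ((C2 + 1) * T) :=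
          mul_le_mul_of_nonneg_left h4 (by positivity)
      _ = (C2 + 1) / r T * Real.exp (-(qf (d T) (h T) ξ / 4)) := by field_simp
      _ ≤ (C2 + 1) / c1 * Real.exp (-(qf (d T) (h T) ξ / 4)) := by
          refine mul_le_mul_of_nonneg_right ?_ (Real.exp_pos _).le
          exact div_le_div_of_nonneg_left (by positivity) hc1 (hr T)
  · -- near zero
    intro e he
    obtain ⟨η, hη, hEq⟩ := hE m (K + 1) (by linarith) (e * c1 / 2) (by positivity)
    refine ⟨min η 1, lt_min hη one_pos, ?_⟩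
    obtain ⟨n, hn⟩ := exists_nat_gt (max (K + 1) (2 / (e * c1)))
    filter_upwards [hN n, hsm] with T hT hT2 ξ hξ
    obtain ⟨h0, h1, hT1⟩ := hT2
    have hT0 : 0 < T := by linarith
    have hr0 : 0 < r T := lt_of_lt_of_le hc1 (hr T)
    have hbn : ∀ j, ‖bb (k T) ξ j‖ ≤ K + 1 := fun j => by
      have h2 := bb_norm (k T) ξ j
      have h3 := hkk T j
      have h4 := (hξ j).trans (min_le_right _ _)
      linarith [abs_nonneg (ξ j)]
    have hcn : ∀ j, ‖cc (k T) j‖ ≤ K + 1 := fun j => by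
      unfold cc
      rw [Complex.norm_real, Real.norm_eq_abs]
      have := hkk T j
      linarith
    have hdf : ∀ j, ‖bb (k T) ξ j - cc (k T) j‖ ≤ η := fun j => by
      rw [bb_diff]
      have h4 := (hξ j).trans (min_le_left _ _)
      linarith [abs_nonneg (ξ j)]
    have hg := hEq (bb (k T) ξ) (bb (k T) ξ) (cc (k T)) (cc (k T)) hbn hbn hcn hcn hdf hdf (h T)
    rw [hra] at hg
    rw [cf_nuV h0 h1 hr0 hT0 (h T) (k T) ξ hT.meas hT.nz]
    have h2 := hT.est (bb (k T) ξ) (fun j => (hbn j).trans (by linarith [le_max_left (K + 1) (2 / (e * c1))]))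
    set W : ℂ := cexp (-(LM (bb (k T) ξ) (bb (k T) ξ) (h T) (d T))) *
      ∫ t in N T, ∏ j, ZZ (riemannZeta (pw (d T) (t + h T j))) (bb (k T) ξ j) 0 with hW
    set ex : ℝ := Real.exp (-(qf (d T) (h T) ξ / 4)) with hex
    have hex0 : 0 < ex := Real.exp_pos _
    have h6 : 1 / ((n:ℝ) + 1) ≤ e * c1 / 2 := by
      have h7 : 2 / (e * c1) < (n:ℝ) + 1 := by linarith [le_max_right (K + 1) (2 / (e * c1))]
      rw [div_lt_iff₀ (by positivity)] at h7
      rw [div_le_iff₀ (by positivity)]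
      linarith
    have h8 : ‖W - T * r T‖ ≤ e * c1 * T := by
      have h9 : W - T * r T = (W - T * aV (bb (k T) ξ) (bb (k T) ξ) (h T)) + T * (aV (bb (k T) ξ) (bb (k T) ξ) (h T) - r T) := by ring
      rw [h9]
      refine (norm_add_le _ _).trans ?_
      rw [norm_mul, Complex.norm_real, Real.norm_of_nonneg hT0.le]
      have k1 := mul_le_mul_of_nonneg_right h6 hT0.le
      have k2 := mul_le_mul_of_nonneg_left hg hT0.le
      linarith
    have hT' : (T : ℂ) ≠ 0 := by exact_mod_cast hT0.ne'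
    have hr' : ((r T : ℝ) : ℂ) ≠ 0 := by exact_mod_cast hr0.ne'
    have e1 : ((1 / (T * r T) * ex : ℝ) : ℂ) * W - (ex : ℂ) = ((1 / (T * r T) * ex : ℝ) : ℂ) * (W - T * r T) := by
      push_cast
      field_simp
    rw [e1, norm_mul, Complex.norm_real, Real.norm_of_nonneg (by positivity)]
    calc 1 / (T * r T) * ex * ‖W - T * r T‖ ≤ 1 / (T * r T) * ex * (e * c1 * T) :=
          mul_le_mul_of_nonneg_left h8 (by positivity)
      _ = e * ex * (c1 / r T) := by field_simp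
      _ ≤ e * ex * 1 := by
          refine mul_le_mul_of_nonneg_left ?_ (by positivity)
          rw [div_le_one hr0]
          exact hr T
      _ = e * ex := mul_one _

end Run7.h42.LP
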