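import Pool.Agent.Run7.h42.LP.App2

set_option autoImplicit false

/-!
# Joint large deviations of zeta at arbitrary shifts (helper42): the limit theorem
-/

namespace Run7.h42.LP

open Finset Filter MeasureTheory Topology Complex
open Pool.Agent.N748.MG Pool.Agent.N748.MJ
open Pool.Agent.N748.MJ.SM (cc)

variable {m : ℕ}

/-- the normalising factor is at most a power of `1/δ` -/
lemma AN_le {q : (Fin m → ℝ) → ℝ} {c C δ : ℝ} (hδ : 0 < δ) (hδ1 : δ ≤ 1 / 16) (hc : 0 < c) (hC : 0 < C)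
    (h : Fm q c C (Real.log (1 / δ))) : AN q ≤ (2 * Real.pi * (1 + C) / δ) ^ m := by
  have hL := log_inv_ge hδ hδ1
  set L := Real.log (1 / δ) with hLd
  have hL0 : 0 < L := by linarith
  have h1 := h.ge hc hC hL0
  have hI := h.pos hc hC hL0
  have h2 : δ / (1 + C) ≤ Real.sqrt (Real.pi / (C * L / 4)) := by
    apply Real.le_sqrt_of_sq_le
    have h3 : L ≤ 1 / δ := Real.log_le_self (by positivity)
    have h5 : (δ / (1 + C)) ^ 2 * (C * L / 4) ≤ Real.pi := by
      have k1 : (δ / (1 + C)) ^ 2 * (C * L / 4) ≤ (δ / (1 + C)) ^ 2 * (C * (1 / δ) / 4) := by gcongr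
      have k2 : (δ / (1 + C)) ^ 2 * (C * (1 / δ) / 4) = δ * (C / (1 + C) ^ 2) / 4 := by field_simp
      have k3 : C / (1 + C) ^ 2 ≤ 1 := by
        rw [div_le_one (by positivity)]
        nlinarith
      have k4 : δ * (C / (1 + C) ^ 2) ≤ δ * 1 := mul_le_mul_of_nonneg_left k3 hδ.le
      have := Real.pi_gt_three
      linarith
    rw [le_div_iff₀ (by positivity)]
    exact h5
  have h4 : (δ / (1 + C)) ^ m ≤ IT q := (pow_le_pow_left₀ (by positivity) h2 m).trans h1
  unfold AN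
  rw [div_le_iff₀ hI]
  calc (2 * Real.pi) ^ m = (2 * Real.pi * (1 + C) / δ) ^ m * (δ / (1 + C)) ^ m := by
        rw [← mul_pow]
        congr 1
        field_simp
    _ ≤ (2 * Real.pi * (1 + C) / δ) ^ m * IT q := mul_le_mul_of_nonneg_left h4 (by positivity)

/-- the reduction to the measures -/
theorem red (hJ : S_JM) (hP : S_POSV) (hZ : S_LZB) (hE : Run7.h291.WN.S_EQC) {d : ℝ → ℝ} (hd : Ad d)
    {h : ℝ → Fin m → ℝ} (hh : ∀ᶠ T : ℝ in atTop, ∀ j, |h T j| ≤ T ^ ((1:ℝ) / 2)) {c : ℝ} (hc : 0 < c)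
    (hq : ∀ᶠ T : ℝ in atTop, ∀ ξ : Fin m → ℝ, c * (Real.log (1 / d T) * ∑ j, ξ j ^ 2) ≤ qf (d T) (h T) ξ)
    (k : ℝ → Fin m → ℝ) {K : ℝ} (hkk : ∀ T j, |k T j| ≤ K) (hK0 : 0 ≤ K) :
    ∃ ν : ℝ → Measure (Fin m → ℝ),
      LH ν (fun T => qf (d T) (h T)) (fun T => Real.log (1 / d T)) c ((m : ℝ) + 1) ∧
      ∀ (g : ℝ → (Fin m → ℝ) → ℝ) (M : ℝ), (∀ T, Measurable (g T)) → (∀ T x, |g T x| ≤ M) →
        Tendsto (fun T : ℝ => AN (qf (d T) (h T)) * ∫ x, Real.exp (-(∑ j, 2 * k T j * x j)) * g T x ∂(ν T) -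
          AN (qf (d T) (h T)) * Real.exp (qf (d T) (h T) (k T)) / (aV (cc (k T)) (cc (k T)) (h T)).re *
          ((1 / T) * ∫ t in (0:ℝ)..T, g T (XV (d T) (h T) (k T) t))) atTop (𝓝 0) := by
  obtain ⟨c1, C1, hc1, hC1, hPo⟩ := hP m K hK0
  set r : ℝ → ℝ := fun T => (aV (cc (k T)) (cc (k T)) (h T)).re with hrd
  have hrr : ∀ T, c1 ≤ r T ∧ aV (cc (k T)) (cc (k T)) (h T) = r T := by
    intro T
    obtain ⟨a, ha1, ha2⟩ := (hPo (h T)).2 (k T) (hkk T)
    have ha2' : aV (cc (k T)) (cc (k T)) (h T) = a := ha2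
    have e : r T = a := by
      rw [hrd]
      simp only
      rw [ha2', Complex.ofReal_re]
    rw [e]
    exact ⟨ha1, ha2'⟩
  set K2 : ℝ := m * K ^ 2 with hK2
  have hK20 : 0 ≤ K2 := by positivity
  have hks : ∀ T, ∑ j, k T j ^ 2 ≤ K2 := by
    intro T
    have h1 : ∀ j ∈ (univ : Finset (Fin m)), k T j ^ 2 ≤ K ^ 2 := fun j _ => by
      have := hkk T j
      rw [← sq_abs]
      exact pow_le_pow_left₀ (abs_nonneg _) this 2
    refine (Finset.sum_le_card_nsmul _ _ _ h1).trans ?_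
    rw [Finset.card_univ, Fintype.card_fin, nsmul_eq_mul]
  set C : ℝ := (m : ℝ) + 1 with hC
  have hC0 : 0 < C := by positivity
  set D : ℝ := (m : ℝ) + C * K2 + 1 with hD
  have hD0 : 0 < D := by positivity
  obtain ⟨N, hN⟩ := exists_sets hJ hd h hh hD0
  have hLH := LHnu hP hZ hE hd hc hq k hkk hK0 hN hc1 (fun T => (hrr T).1) (fun T => (hrr T).2)
  have hsm : ∀ᶠ T : ℝ in atTop, 0 < d T ∧ d T ≤ 1 / 16 ∧ 1 ≤ T := by
    filter_upwards [hd.pos, hd.t0.eventually_le_const (show (0 : ℝ) < 1 / 16 by norm_num),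
      eventually_ge_atTop 1] with T a b c
    exact ⟨a, b, c⟩
  refine ⟨_, hLH, fun g M hg hM => ?_⟩
  have hM0 : 0 ≤ M := (abs_nonneg _).trans (hM 0 0)
  -- the rest
  set E : ℝ → ℝ := fun T => AN (qf (d T) (h T)) * Real.exp (qf (d T) (h T) (k T)) / r T *
    ((1 / T) * ∫ t in Set.Icc 0 T \ N T, g T (XV (d T) (h T) (k T) t)) with hEd
  have hE0 : Tendsto E atTop (𝓝 0) := by
    have hb : ∀ᶠ T : ℝ in atTop, ‖E T‖ ≤ (2 * Real.pi * (1 + C)) ^ m / c1 * M * d T := by
      filter_upwards [hN 0, hsm, hLH.fm] with T hT hT2 hfm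
      obtain ⟨h0, h1, hT1⟩ := hT2
      have hT0 : 0 < T := by linarith
      have hr0 : 0 < r T := lt_of_lt_of_le hc1 (hrr T).1
      have hL := log_inv_ge h0 h1
      have h2 : ‖∫ t in Set.Icc 0 T \ N T, g T (XV (d T) (h T) (k T) t)‖ ≤ M * (d T ^ D * T) := by
        have hfin : volume (Set.Icc 0 T \ N T) < ⊤ := lt_of_le_of_lt hT.vol ENNReal.ofReal_lt_top
        refine (norm_setIntegral_le_of_norm_le_const (C := M) hfin fun t _ => hM _ _).trans ?_
        refine mul_le_mul_of_nonneg_left ?_ hM0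
        have h3 := ENNReal.toReal_mono ENNReal.ofReal_ne_top hT.vol
        rw [ENNReal.toReal_ofReal (by positivity)] at h3
        exact h3
      have hA0 : 0 ≤ AN (qf (d T) (h T)) := div_nonneg (by positivity) (hfm.pos hc hC0 (by linarith)).le
      have hA1 := AN_le h0 h1 hc hC0 hfm
      have hq1 : Real.exp (qf (d T) (h T) (k T)) ≤ d T ^ (-(C * K2)) := by
        have h3 := hfm.up (k T)
        rw [Real.rpow_def_of_pos h0]
        apply Real.exp_le_exp.2
        have h4 : Real.log (1 / d T) = -Real.log (d T) := by rw [one_div, Real.log_inv]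
        have h6 : C * (Real.log (1 / d T) * ∑ j, k T j ^ 2) ≤ C * (Real.log (1 / d T) * K2) := by
          refine mul_le_mul_of_nonneg_left (mul_le_mul_of_nonneg_left (hks T) ?_) hC0.le
          linarith
        have h5 : C * (-Real.log (d T) * K2) = Real.log (d T) * -(C * K2) := by ring
        rw [← h5, ← h4]
        exact h3.trans h6
      have hpow : (1 / d T) ^ m * d T ^ (-(C * K2)) * d T ^ D = d T := by
        have e1 : (1 / d T) ^ m = d T ^ (-(m:ℝ)) := by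
          rw [Real.rpow_neg h0.le, Real.rpow_natCast, one_div, inv_pow]
        rw [e1, ← Real.rpow_add h0, ← Real.rpow_add h0, hD]
        rw [show -(m:ℝ) + -(C * K2) + ((m:ℝ) + C * K2 + 1) = 1 by ring, Real.rpow_one]
      rw [hEd]
      simp only
      rw [norm_mul, norm_mul, norm_div, norm_mul, Real.norm_of_nonneg hA0, Real.norm_of_nonneg (Real.exp_pos _).le,
        Real.norm_of_nonneg hr0.le, Real.norm_of_nonneg (by positivity : (0 : ℝ) ≤ 1 / T)]
      calc AN (qf (d T) (h T)) * Real.exp (qf (d T) (h T) (k T)) / r T *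
            (1 / T * ‖∫ t in Set.Icc 0 T \ N T, g T (XV (d T) (h T) (k T) t)‖)
          ≤ ((2 * Real.pi * (1 + C) / d T) ^ m) * d T ^ (-(C * K2)) / c1 * (1 / T * (M * (d T ^ D * T))) := by
            gcongr
            exact (hrr T).1
        _ = (2 * Real.pi * (1 + C)) ^ m / c1 * M * ((1 / d T) ^ m * d T ^ (-(C * K2)) * d T ^ D) := by
            have e5 : (2 * Real.pi * (1 + C) / d T) ^ m = (2 * Real.pi * (1 + C)) ^ m * (1 / d T) ^ m := by
              rw [← mul_pow, mul_one_div]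
            have e6 : (1 : ℝ) / T * (M * (d T ^ D * T)) = M * d T ^ D := by
              field_simp
            rw [e5, e6]
            ring
        _ = (2 * Real.pi * (1 + C)) ^ m / c1 * M * d T := by rw [hpow]
    have h0 : Tendsto (fun T : ℝ => (2 * Real.pi * (1 + C)) ^ m / c1 * M * d T) atTop (𝓝 0) := by
      have h1 := hd.t0.const_mul ((2 * Real.pi * (1 + C)) ^ m / c1 * M)
      rwa [mul_zero] at h1
    exact squeeze_zero_norm' hb h0
  have hE1 := hE0.neg
  rw [neg_zero] at hE1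
  refine hE1.congr' ?_
  filter_upwards [hN 0, hsm] with T hT hT2
  obtain ⟨h0, h1, hT1⟩ := hT2
  have hT0 : 0 < T := by linarith
  have hr0 : 0 < r T := lt_of_lt_of_le hc1 (hrr T).1
  have hint : IntegrableOn (fun t => g T (XV (d T) (h T) (k T) t)) (Set.Icc 0 T) volume := by
    refine Measure.integrableOn_of_bounded (M := M) ?_ ?_ ?_
    · rw [Real.volume_Icc]
      exact ENNReal.ofReal_ne_top
    · exact ((hg T).comp (XV_meas h0 h1 (h T) (k T))).aestronglyMeasurable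
    · exact Eventually.of_forall fun t => hM _ _
  have hsplit : ∫ t in (0 : ℝ)..T, g T (XV (d T) (h T) (k T) t) =
      (∫ t in N T, g T (XV (d T) (h T) (k T) t)) + ∫ t in Set.Icc 0 T \ N T, g T (XV (d T) (h T) (k T) t) := by
    rw [intervalIntegral.integral_of_le hT0.le, ← integral_Icc_eq_integral_Ioc]
    have h2 := setIntegral_union (μ := volume) (f := fun t => g T (XV (d T) (h T) (k T) t))
      (Set.disjoint_sdiff_right (s := N T) (t := Set.Icc 0 T))
      (measurableSet_Icc.diff hT.meas) (hint.mono_set hT.sub) (hint.mono_set Set.sdiff_subset)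
    rw [Set.union_sdiff_cancel hT.sub] at h2
    exact h2
  have h3 := int_g h0 h1 hr0 hT0 (h T) (k T) hT.meas hT.nz (hg T)
  rw [hsplit, hEd]
  simp only
  rw [h3]
  ring

/-- the limit theorem with a fixed tilt -/
theorem ld (hJ : S_JM) (hP : S_POSV) (hZ : S_LZB) (hE : Run7.h291.WN.S_EQC) {d : ℝ → ℝ} (hd : Ad d)
    {h : ℝ → Fin m → ℝ} (hh : ∀ᶠ T : ℝ in atTop, ∀ j, |h T j| ≤ T ^ ((1:ℝ) / 2)) {c : ℝ} (hc : 0 < c)
    (hq : ∀ᶠ T : ℝ in atTop, ∀ ξ : Fin m → ℝ, c * (Real.log (1 / d T) * ∑ j, ξ j ^ 2) ≤ qf (d T) (h T) ξ)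
    (k : Fin m → ℝ) (g : (Fin m → ℝ) → ℝ) (S : Set (Fin m → ℝ)) (hS : volume S = 0) (hg : Measurable g)
    (hgc : ∀ x, x ∉ S → ContinuousAt g x) (M : ℝ) (hM : ∀ x, |g x| ≤ M)
    (hM2 : ∀ x, |g x| * ∏ j, (1 + x j ^ 2) ≤ M * Real.exp (∑ j, 2 * k j * x j)) :
    Tendsto (fun T : ℝ => AN (qf (d T) (h T)) * Real.exp (qf (d T) (h T) k) / (aV (cc k) (cc k) (h T)).re *
      ((1 / T) * ∫ t in (0:ℝ)..T, g (XV (d T) (h T) k t))) atTop
      (𝓝 (∫ x : Fin m → ℝ, Real.exp (-(∑ j, 2 * k j * x j)) * g x)) := by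
  have hK0 : 0 ≤ ∑ i, |k i| := Finset.sum_nonneg fun j _ => abs_nonneg _
  have hkk : ∀ j, |k j| ≤ ∑ i, |k i| := fun j =>
    Finset.single_le_sum (f := fun i => |k i|) (fun i _ => abs_nonneg _) (mem_univ j)
  obtain ⟨ν, hν, hred⟩ := red hJ hP hZ hE hd hh hc hq (fun _ => k) (fun _ => hkk) hK0
  have hr := hred (fun _ => g) M (fun _ => hg) (fun _ => hM)
  have hec : Continuous fun x : Fin m → ℝ => Real.exp (-(∑ j, 2 * k j * x j)) := by fun_prop
  have key := llt hν (fun x => Real.exp (-(∑ j, 2 * k j * x j)) * g x) S hS (hec.measurable.mul hg)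
    (fun x hx => hec.continuousAt.mul (hgc x hx)) M (fun x => by
      rw [abs_mul, Real.abs_exp, mul_assoc]
      calc Real.exp (-(∑ j, 2 * k j * x j)) * (|g x| * ∏ j, (1 + x j ^ 2)) ≤
            Real.exp (-(∑ j, 2 * k j * x j)) * (M * Real.exp (∑ j, 2 * k j * x j)) :=
            mul_le_mul_of_nonneg_left (hM2 x) (Real.exp_pos _).le
        _ = M * (Real.exp (-(∑ j, 2 * k j * x j)) * Real.exp (∑ j, 2 * k j * x j)) := by ring
        _ = M := by rw [← Real.exp_add, neg_add_cancel, Real.exp_zero, mul_one])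
  have h2 := key.sub hr
  rw [sub_zero] at h2
  refine h2.congr fun T => ?_
  ring

end Run7.h42.LP
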