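import Mathlib

set_option autoImplicit false

/-!
# Joint large deviations of zeta at arbitrary shifts (helper42): orthants
-/

namespace Run7.h42.LP

open Finset Filter MeasureTheory Topology

variable {m : ℕ}

/-- the indicator in one variable -/
noncomputable def i1 (a b x : ℝ) : ℝ := if 0 < a * (x + b) then 1 else 0

/-- the indicator of the orthant -/
noncomputable def OI (k b x : Fin m → ℝ) : ℝ := ∏ j, i1 (k j) (b j) (x j)

lemma OI_eq (k b x : Fin m → ℝ) : OI k b x = if ∀ j, 0 < k j * (x j + b j) then 1 else 0 := by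
  unfold OI i1
  rw [Fintype.prod_boole]
  by_cases hh : ∀ j, 0 < k j * (x j + b j)
  · rw [if_pos hh, if_pos hh]
  · rw [if_neg hh, if_neg hh]

lemma i1_nonneg (a b x : ℝ) : 0 ≤ i1 a b x := by
  unfold i1
  split_ifs <;> norm_num

lemma i1_le (a b x : ℝ) : i1 a b x ≤ 1 := by
  unfold i1
  split_ifs <;> norm_num

lemma i1_meas (a b : ℝ) : Measurable (i1 a b) := by
  unfold i1
  refine Measurable.ite ?_ measurable_const measurable_const
  exact measurableSet_lt measurable_const (by fun_prop)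

lemma i1_cont {a b x : ℝ} (ha : a ≠ 0) (hx : x ≠ -b) : ContinuousAt (i1 a b) x := by
  have h0 : a * (x + b) ≠ 0 := mul_ne_zero ha (fun h => hx (by linarith))
  have hc : Continuous fun y : ℝ => a * (y + b) := by fun_prop
  rcases lt_or_gt_of_ne h0 with h | h
  · have h1 : ∀ᶠ y in 𝓝 x, a * (y + b) < 0 := hc.continuousAt.eventually (gt_mem_nhds h)
    have h2 : i1 a b =ᶠ[𝓝 x] fun _ => 0 := by
      filter_upwards [h1] with y hy
      unfold i1
      rw [if_neg (not_lt.2 hy.le)]
    exact (continuousAt_const (y := (0:ℝ))).congr h2.symm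
  · have h1 : ∀ᶠ y in 𝓝 x, 0 < a * (y + b) := hc.continuousAt.eventually (lt_mem_nhds h)
    have h2 : i1 a b =ᶠ[𝓝 x] fun _ => 1 := by
      filter_upwards [h1] with y hy
      unfold i1
      rw [if_pos hy]
    exact (continuousAt_const (y := (1:ℝ))).congr h2.symm

lemma i1_int {a : ℝ} (ha : a ≠ 0) (b : ℝ) :
    ∫ x : ℝ, Real.exp (-(2 * a * x)) * i1 a b x = Real.exp (2 * a * b) / (2 * |a|) := by
  rcases lt_or_gt_of_ne ha with h | h
  · have e1 : (fun x : ℝ => Real.exp (-(2 * a * x)) * i1 a b x) =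
        (Set.Iio (-b)).indicator (fun x => Real.exp ((-(2 * a)) * x)) := by
      funext x
      unfold i1 Set.indicator
      have hi : 0 < a * (x + b) ↔ x < -b := by
        constructor
        · intro h1
          by_contra h2
          push Not at h2
          have := mul_nonpos_of_nonpos_of_nonneg h.le (by linarith : 0 ≤ x + b)
          linarith
        · intro h1
          exact mul_pos_of_neg_of_neg h (by linarith)
      simp only [Set.mem_Iio, hi]
      split_ifs
      · rw [mul_one, neg_mul]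
      · rw [mul_zero]
    rw [e1, integral_indicator measurableSet_Iio, ← integral_Iic_eq_integral_Iio,
      integral_exp_mul_Iic (by linarith : (0:ℝ) < -(2 * a)), abs_of_neg h]
    congr 1
    · congr 1
      ring
    · ring
  · have e1 : (fun x : ℝ => Real.exp (-(2 * a * x)) * i1 a b x) =
        (Set.Ioi (-b)).indicator (fun x => Real.exp ((-(2 * a)) * x)) := by
      funext x
      unfold i1 Set.indicator
      have hi : 0 < a * (x + b) ↔ -b < x := by
        constructor
        · intro h1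
          by_contra h2
          push Not at h2
          have := mul_nonpos_of_nonneg_of_nonpos h.le (by linarith : x + b ≤ 0)
          linarith
        · intro h1
          exact mul_pos h (by linarith)
      simp only [Set.mem_Ioi, hi]
      split_ifs
      · rw [mul_one, neg_mul]
      · rw [mul_zero]
    rw [e1, integral_indicator measurableSet_Ioi, integral_exp_mul_Ioi (by linarith : -(2 * a) < 0), abs_of_pos h]
    have h2 : Real.exp (-(2 * a) * -b) = Real.exp (2 * a * b) := by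
      congr 1
      ring
    rw [h2]
    field_simp

lemma exp_sum_prod (k x : Fin m → ℝ) : Real.exp (-(∑ j, 2 * k j * x j)) = ∏ j, Real.exp (-(2 * k j * x j)) := by
  rw [← Finset.sum_neg_distrib, Real.exp_sum]

lemma OI_int {k : Fin m → ℝ} (hk : ∀ j, k j ≠ 0) (b : Fin m → ℝ) :
    ∫ x : Fin m → ℝ, Real.exp (-(∑ j, 2 * k j * x j)) * OI k b x = ∏ j, Real.exp (2 * k j * b j) / (2 * |k j|) := by
  have e1 : ∀ x : Fin m → ℝ, Real.exp (-(∑ j, 2 * k j * x j)) * OI k b x =
      ∏ j, (Real.exp (-(2 * k j * x j)) * i1 (k j) (b j) (x j)) := by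
    intro x
    rw [exp_sum_prod, OI, Finset.prod_mul_distrib]
  simp_rw [e1]
  rw [integral_fintype_prod_volume_eq_prod (fun j (a : ℝ) => Real.exp (-(2 * k j * a)) * i1 (k j) (b j) a)]
  exact Finset.prod_congr rfl fun j _ => i1_int (hk j) (b j)

lemma OI_meas (k b : Fin m → ℝ) : Measurable (OI k b) := by
  unfold OI
  exact Finset.measurable_prod _ fun j _ => (i1_meas _ _).comp (measurable_pi_apply j)

lemma OI_nonneg (k b x : Fin m → ℝ) : 0 ≤ OI k b x := Finset.prod_nonneg fun _ _ => i1_nonneg _ _ _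

lemma OI_le (k b x : Fin m → ℝ) : OI k b x ≤ 1 := Finset.prod_le_one (fun _ _ => i1_nonneg _ _ _) fun _ _ => i1_le _ _ _

/-- the boundary -/
def bdy (b : Fin m → ℝ) : Set (Fin m → ℝ) := {x | ∃ j, x j = -b j}

lemma bdy_null (b : Fin m → ℝ) : volume (bdy b) = 0 := by
  have h1 : bdy b = ⋃ j : Fin m, {x : Fin m → ℝ | x j = -b j} := by
    ext x
    simp [bdy]
  rw [h1, measure_iUnion_null_iff]
  intro j
  have h2 : {x : Fin m → ℝ | x j = -b j} = Set.pi Set.univ (fun i => if i = j then {-b j} else Set.univ) := by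
    ext x
    simp only [Set.mem_ofPred_eq, Set.mem_pi, Set.mem_univ, forall_true_left]
    constructor
    · intro hx i
      by_cases hi : i = j
      · subst hi
        simp [hx]
      · simp [hi]
    · intro hx
      have := hx j
      simpa using this
  rw [h2, volume_pi_pi]
  exact Finset.prod_eq_zero (mem_univ j) (by simp)

lemma OI_cont {k : Fin m → ℝ} (hk : ∀ j, k j ≠ 0) (b : Fin m → ℝ) (x : Fin m → ℝ) (hx : x ∉ bdy b) :
    ContinuousAt (OI k b) x := by
  unfold OI
  refine tendsto_finsetProd _ fun j _ => ?_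
  have h1 : x j ≠ -b j := fun h => hx ⟨j, h⟩
  exact (i1_cont (hk j) h1).comp (f := fun y : Fin m → ℝ => y j) (continuous_apply j).continuousAt

lemma sq_le_exp {y : ℝ} (hy : 0 ≤ y) : y ^ 2 ≤ Real.exp (2 * y) := by
  have h1 : y ≤ Real.exp y := by linarith [Real.add_one_le_exp y]
  calc y ^ 2 ≤ Real.exp y ^ 2 := pow_le_pow_left₀ hy h1 2
    _ = Real.exp (2 * y) := by rw [← Real.exp_nat_mul]; norm_num

lemma i1_bd {a : ℝ} (ha : a ≠ 0) (b : ℝ) : ∃ M : ℝ, 0 ≤ M ∧ ∀ x : ℝ, i1 a b x * (1 + x ^ 2) ≤ M * Real.exp (2 * a * x) := by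
  refine ⟨(1 + 2 * b ^ 2 + 2 / a ^ 2) * Real.exp (2 * a * b), by positivity, fun x => ?_⟩
  unfold i1
  split_ifs with h
  · set y := a * (x + b) with hy
    have hx : x = y / a - b := by
      rw [hy]
      field_simp
      ring
    have h1 : 1 + x ^ 2 ≤ 1 + 2 * b ^ 2 + 2 / a ^ 2 * y ^ 2 := by
      have h2 : x ^ 2 ≤ 2 * (y / a) ^ 2 + 2 * b ^ 2 := by
        rw [hx]
        nlinarith [sq_nonneg (y / a + b)]
      have h3 : (y / a) ^ 2 = 1 / a ^ 2 * y ^ 2 := by
        rw [div_pow]
        ring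
      rw [h3] at h2
      have h4 : 2 / a ^ 2 * y ^ 2 = 2 * (1 / a ^ 2 * y ^ 2) := by ring
      rw [h4]
      linarith
    have h5 := sq_le_exp h.le
    have h6 : 1 ≤ Real.exp (2 * y) := Real.one_le_exp (by linarith)
    have h7 : Real.exp (2 * a * b) * Real.exp (2 * a * x) = Real.exp (2 * y) := by
      rw [← Real.exp_add]
      congr 1
      rw [hy]
      ring
    rw [one_mul, mul_assoc, h7]
    have h8 : 0 ≤ 2 / a ^ 2 := by positivity
    have h9 : 0 ≤ 1 + 2 * b ^ 2 := by positivity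
    have k1 := mul_le_mul_of_nonneg_left h5 h8
    have k2 := mul_le_mul_of_nonneg_left h6 h9
    have e3 : (1 + 2 * b ^ 2 + 2 / a ^ 2) * Real.exp (2 * y) = (1 + 2 * b ^ 2) * Real.exp (2 * y) +
        2 / a ^ 2 * Real.exp (2 * y) := by ring
    rw [e3]
    linarith
  · rw [zero_mul]
    positivity

lemma OI_bd {k : Fin m → ℝ} (hk : ∀ j, k j ≠ 0) (b : Fin m → ℝ) : ∃ M : ℝ, 1 ≤ M ∧
    ∀ x : Fin m → ℝ, |OI k b x| * ∏ j, (1 + x j ^ 2) ≤ M * Real.exp (∑ j, 2 * k j * x j) := by
  choose M hM0 hM using fun j : Fin m => i1_bd (hk j) (b j)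
  refine ⟨∏ j, M j + 1, by
    have := Finset.prod_nonneg fun j (_ : j ∈ (univ : Finset (Fin m))) => hM0 j
    linarith, fun x => ?_⟩
  rw [abs_of_nonneg (OI_nonneg _ _ _)]
  have h1 : OI k b x * ∏ j, (1 + x j ^ 2) ≤ (∏ j, M j) * Real.exp (∑ j, 2 * k j * x j) := by
    rw [OI, ← Finset.prod_mul_distrib, Real.exp_sum, ← Finset.prod_mul_distrib]
    exact Finset.prod_le_prod (fun j _ => mul_nonneg (i1_nonneg _ _ _) (by positivity)) fun j _ => hM j (x j)
  have h2 := Real.exp_pos (∑ j, 2 * k j * x j)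
  linarith

lemma exp_diff_le {s t c : ℝ} (hs : c ≤ s) (ht : c ≤ t) : |Real.exp (-s) - Real.exp (-t)| ≤ |s - t| * Real.exp (-c) := by
  wlog hst : s ≤ t generalizing s t
  · rw [abs_sub_comm, abs_sub_comm s t]
    exact this ht hs (not_le.1 hst).le
  have h1 : Real.exp (-t) ≤ Real.exp (-s) := Real.exp_le_exp.2 (by linarith)
  rw [abs_of_nonneg (by linarith), abs_sub_comm, abs_of_nonneg (by linarith : 0 ≤ t - s)]
  have h2 : Real.exp (-t) = Real.exp (-s) * Real.exp (-(t - s)) := by
    rw [← Real.exp_add]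
    congr 1
    ring
  have h3 : 1 - (t - s) ≤ Real.exp (-(t - s)) := by linarith [Real.add_one_le_exp (-(t - s))]
  have h4 : Real.exp (-s) ≤ Real.exp (-c) := Real.exp_le_exp.2 (by linarith)
  have h5 := Real.exp_pos (-s)
  rw [h2]
  have h6 := mul_le_mul_of_nonneg_left h3 h5.le
  have h7 := mul_le_mul_of_nonneg_left h4 (by linarith : 0 ≤ t - s)
  nlinarith

/-- continuity in the exponents, uniformly with the weight -/
lemma OI_lip {κ : ℝ} (hκ : 0 < κ) : ∃ C : ℝ, 0 ≤ C ∧ ∀ k k' : Fin m → ℝ, (∀ j, κ ≤ |k j|) → (∀ j, κ ≤ |k' j|) →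
    (∀ j, 0 < k j * k' j) → ∀ x : Fin m → ℝ,
    |(Real.exp (-(∑ j, 2 * k j * x j)) - Real.exp (-(∑ j, 2 * k' j * x j))) * OI k' 0 x| ≤
      C * (∑ j, |k j - k' j|) * (∏ j, (1 + x j ^ 2))⁻¹ := by
  refine ⟨2 / κ * (1 + 2 / κ ^ 2) ^ m, by positivity, fun k k' hk hk' hs x => ?_⟩
  rw [abs_mul, abs_of_nonneg (OI_nonneg _ _ _), OI_eq]
  have hP : 0 < ∏ j, (1 + x j ^ 2) := Finset.prod_pos fun j _ => by positivity
  split_ifs with h
  · rw [mul_one, ← div_eq_mul_inv, le_div_iff₀ hP]
    simp only [Pi.zero_apply, add_zero] at h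
    have hkx : ∀ j, k j * x j = |k j| * |x j| := by
      intro j
      rw [← abs_mul, abs_of_pos]
      have h1 := h j
      have h2 := hs j
      have hx : x j ≠ 0 := by
        intro h0
        rw [h0, mul_zero] at h1
        exact lt_irrefl _ h1
      have h3 : 0 < (k j * k' j) * (k' j * x j) := mul_pos h2 h1
      have hk'0 : k' j ≠ 0 := by
        intro h0
        rw [h0, mul_zero] at h2
        exact lt_irrefl _ h2
      have h4 : (k j * k' j) * (k' j * x j) = k' j ^ 2 * (k j * x j) := by ring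
      rw [h4] at h3
      exact (mul_pos_iff_of_pos_left (by positivity)).1 h3
    have hk'x : ∀ j, k' j * x j = |k' j| * |x j| := by
      intro j
      rw [← abs_mul, abs_of_pos (h j)]
    set Y : ℝ := ∑ j, |x j| with hY
    have hY0 : 0 ≤ Y := Finset.sum_nonneg fun j _ => abs_nonneg _
    have hc1 : 2 * κ * Y ≤ ∑ j, 2 * k j * x j := by
      rw [hY, Finset.mul_sum]
      refine Finset.sum_le_sum fun j _ => ?_
      rw [mul_assoc 2 (k j), hkx, mul_assoc]
      exact mul_le_mul_of_nonneg_left (mul_le_mul_of_nonneg_right (hk j) (abs_nonneg _)) (by norm_num)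
    have hc2 : 2 * κ * Y ≤ ∑ j, 2 * k' j * x j := by
      rw [hY, Finset.mul_sum]
      refine Finset.sum_le_sum fun j _ => ?_
      rw [mul_assoc 2 (k' j), hk'x, mul_assoc]
      exact mul_le_mul_of_nonneg_left (mul_le_mul_of_nonneg_right (hk' j) (abs_nonneg _)) (by norm_num)
    have h1 := exp_diff_le hc1 hc2
    have h2 : |∑ j, 2 * k j * x j - ∑ j, 2 * k' j * x j| ≤ 2 * (∑ j, |k j - k' j|) * Y := by
      rw [← Finset.sum_sub_distrib]
      refine (Finset.abs_sum_le_sum_abs _ _).trans ?_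
      calc ∑ j, |2 * k j * x j - 2 * k' j * x j| ≤ ∑ j, 2 * |k j - k' j| * Y := by
            refine Finset.sum_le_sum fun j _ => ?_
            rw [show 2 * k j * x j - 2 * k' j * x j = 2 * (k j - k' j) * x j by ring, abs_mul, abs_mul,
              abs_of_pos (show (0:ℝ) < 2 by norm_num)]
            refine mul_le_mul_of_nonneg_left ?_ (by positivity)
            exact Finset.single_le_sum (f := fun i => |x i|) (fun i _ => abs_nonneg _) (mem_univ j)
        _ = 2 * (∑ j, |k j - k' j|) * Y := by rw [← Finset.sum_mul, ← Finset.mul_sum]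
    have h3 : Y * Real.exp (-(κ * Y)) ≤ 1 / κ := by
      have h4 : κ * Y ≤ Real.exp (κ * Y) := by linarith [Real.add_one_le_exp (κ * Y)]
      rw [Real.exp_neg, ← div_eq_mul_inv, div_le_div_iff₀ (Real.exp_pos _) hκ]
      linarith
    have h5 : Real.exp (-(κ * Y)) * ∏ j, (1 + x j ^ 2) ≤ (1 + 2 / κ ^ 2) ^ m := by
      have e1 : Real.exp (-(κ * Y)) = ∏ j, Real.exp (-(κ * |x j|)) := by
        rw [← Real.exp_sum, hY, Finset.mul_sum, Finset.sum_neg_distrib]
      rw [e1, ← Finset.prod_mul_distrib]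
      calc ∏ j, Real.exp (-(κ * |x j|)) * (1 + x j ^ 2) ≤ ∏ _j : Fin m, (1 + 2 / κ ^ 2) := by
            refine Finset.prod_le_prod (fun j _ => by positivity) fun j _ => ?_
            have h6 : (κ * |x j|) ^ 2 / 2 ≤ Real.exp (κ * |x j|) - 1 := by
              have := Real.quadratic_le_exp_of_nonneg (x := κ * |x j|) (by positivity)
              nlinarith [mul_nonneg hκ.le (abs_nonneg (x j))]
            rw [Real.exp_neg, mul_comm, ← div_eq_mul_inv, div_le_iff₀ (Real.exp_pos _)]
            rw [mul_pow, sq_abs] at h6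
            have h7 : x j ^ 2 = 2 / κ ^ 2 * (κ ^ 2 * x j ^ 2 / 2) := by field_simp
            have h8 : 2 / κ ^ 2 * (κ ^ 2 * x j ^ 2 / 2) ≤ 2 / κ ^ 2 * (Real.exp (κ * |x j|) - 1) :=
              mul_le_mul_of_nonneg_left h6 (by positivity)
            have h9 : 1 ≤ Real.exp (κ * |x j|) := Real.one_le_exp (by positivity)
            have h10 : 0 ≤ 2 / κ ^ 2 := by positivity
            rw [h7]
            nlinarith
        _ = (1 + 2 / κ ^ 2) ^ m := by
            rw [Finset.prod_const, Finset.card_univ, Fintype.card_fin]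
    have hD0 : 0 ≤ ∑ j, |k j - k' j| := Finset.sum_nonneg fun j _ => abs_nonneg _
    calc |Real.exp (-∑ j, 2 * k j * x j) - Real.exp (-∑ j, 2 * k' j * x j)| * ∏ j, (1 + x j ^ 2)
        ≤ (2 * (∑ j, |k j - k' j|) * Y * Real.exp (-(2 * κ * Y))) * ∏ j, (1 + x j ^ 2) := by
          refine mul_le_mul_of_nonneg_right (h1.trans ?_) hP.le
          exact mul_le_mul_of_nonneg_right h2 (Real.exp_pos _).le
      _ = 2 * (∑ j, |k j - k' j|) * (Y * Real.exp (-(κ * Y))) * (Real.exp (-(κ * Y)) * ∏ j, (1 + x j ^ 2)) := by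
          rw [show -(2 * κ * Y) = -(κ * Y) + -(κ * Y) by ring, Real.exp_add]
          ring
      _ ≤ 2 * (∑ j, |k j - k' j|) * (1 / κ) * (1 + 2 / κ ^ 2) ^ m := by
          refine mul_le_mul (mul_le_mul_of_nonneg_left h3 (by positivity)) h5 (by positivity) (by positivity)
      _ = 2 / κ * (1 + 2 / κ ^ 2) ^ m * ∑ j, |k j - k' j| := by ring
  · rw [mul_zero]
    have hD0 : 0 ≤ ∑ j, |k j - k' j| := Finset.sum_nonneg fun j _ => abs_nonneg _
    positivity

end Run7.h42.LP
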