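import Pool.Agent.Run7.h42.LP.App4
import Pool.Agent.Run7.h42.LP.Ort

set_option autoImplicit false

/-!
# Joint large deviations of zeta at arbitrary shifts (helper42): orthants
-/

namespace Run7.h42.LP

open Finset Filter MeasureTheory Topology Complex
open Pool.Agent.N748.MG Pool.Agent.N748.MJ
open Pool.Agent.N748.MJ.SM (cc)

variable {m : ℕ}

lemma OI_congr {k k' : Fin m → ℝ} (hs : ∀ j, 0 < k j * k' j) (x : Fin m → ℝ) : OI k 0 x = OI k' 0 x := by
  rw [OI_eq, OI_eq]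
  have h : (∀ j, 0 < k j * (x j + (0 : Fin m → ℝ) j)) ↔ (∀ j, 0 < k' j * (x j + (0 : Fin m → ℝ) j)) := by
    refine forall_congr' fun j => ?_
    have h1 := hs j
    have hk : k j ≠ 0 := fun h0 => by simp [h0] at h1
    have hk' : k' j ≠ 0 := fun h0 => by simp [h0] at h1
    constructor
    · intro h2
      have h3 : 0 < (k j * k' j) * (k j * (x j + (0 : Fin m → ℝ) j)) := mul_pos h1 h2
      have h4 : (k j * k' j) * (k j * (x j + (0 : Fin m → ℝ) j)) = k j ^ 2 * (k' j * (x j + (0 : Fin m → ℝ) j)) := by ring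
      rw [h4] at h3
      exact (mul_pos_iff_of_pos_left (by positivity)).1 h3
    · intro h2
      have h3 : 0 < (k j * k' j) * (k' j * (x j + (0 : Fin m → ℝ) j)) := mul_pos h1 h2
      have h4 : (k j * k' j) * (k' j * (x j + (0 : Fin m → ℝ) j)) = k' j ^ 2 * (k j * (x j + (0 : Fin m → ℝ) j)) := by ring
      rw [h4] at h3
      exact (mul_pos_iff_of_pos_left (by positivity)).1 h3
  by_cases hh : ∀ j, 0 < k j * (x j + (0 : Fin m → ℝ) j)
  · rw [if_pos hh, if_pos (h.1 hh)]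
  · rw [if_neg hh, if_neg fun h' => hh (h.2 h')]

lemma prod_ge_one (x : Fin m → ℝ) : 1 ≤ ∏ j, (1 + x j ^ 2) := by
  calc (1:ℝ) = ∏ _j : Fin m, (1:ℝ) := Finset.prod_const_one.symm
    _ ≤ ∏ j, (1 + x j ^ 2) := Finset.prod_le_prod (fun _ _ => zero_le_one) fun j _ => by nlinarith [sq_nonneg (x j)]

lemma wb {k : Fin m → ℝ} (hk : ∀ j, k j ≠ 0) (b : Fin m → ℝ) : ∃ M : ℝ,
    ∀ x : Fin m → ℝ, |Real.exp (-(∑ j, 2 * k j * x j)) * OI k b x| * ∏ j, (1 + x j ^ 2) ≤ M := by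
  obtain ⟨M, hM1, hM⟩ := OI_bd hk b
  refine ⟨M, fun x => ?_⟩
  rw [abs_mul, Real.abs_exp, mul_assoc]
  calc Real.exp (-(∑ j, 2 * k j * x j)) * (|OI k b x| * ∏ j, (1 + x j ^ 2)) ≤
        Real.exp (-(∑ j, 2 * k j * x j)) * (M * Real.exp (∑ j, 2 * k j * x j)) :=
        mul_le_mul_of_nonneg_left (hM x) (Real.exp_pos _).le
    _ = M * (Real.exp (-(∑ j, 2 * k j * x j)) * Real.exp (∑ j, 2 * k j * x j)) := by ring
    _ = M := by rw [← Real.exp_add, neg_add_cancel, Real.exp_zero, mul_one]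

lemma wb_int {k : Fin m → ℝ} (hk : ∀ j, k j ≠ 0) (b : Fin m → ℝ) (ν : Measure (Fin m → ℝ)) [IsFiniteMeasure ν] :
    Integrable (fun x : Fin m → ℝ => Real.exp (-(∑ j, 2 * k j * x j)) * OI k b x) ν := by
  obtain ⟨M, hM⟩ := wb hk b
  refine Integrable.of_bound (C := M) ?_ (Eventually.of_forall fun x => ?_)
  · have hec : Continuous fun x : Fin m → ℝ => Real.exp (-(∑ j, 2 * k j * x j)) := by fun_prop
    exact (hec.measurable.mul (OI_meas k b)).aestronglyMeasurable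
  · have h1 := hM x
    have h2 := prod_ge_one x
    rw [Real.norm_eq_abs]
    nlinarith [abs_nonneg (Real.exp (-(∑ j, 2 * k j * x j)) * OI k b x)]

/-- orthants, varying tilts -/
theorem orthV (hJ : S_JM) (hP : S_POSV) (hZ : S_LZB) (hE : Run7.h291.WN.S_EQC) {d : ℝ → ℝ} (hd : Ad d)
    {h : ℝ → Fin m → ℝ} (hh : ∀ᶠ T : ℝ in atTop, ∀ j, |h T j| ≤ T ^ ((1:ℝ) / 2)) {c : ℝ} (hc : 0 < c)
    (hq : ∀ᶠ T : ℝ in atTop, ∀ ξ : Fin m → ℝ, c * (Real.log (1 / d T) * ∑ j, ξ j ^ 2) ≤ qf (d T) (h T) ξ)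
    (k : ℝ → Fin m → ℝ) {κ K : ℝ} (hκ : 0 < κ) (hk1 : ∀ T j, κ ≤ |k T j|) (hkk : ∀ T j, |k T j| ≤ K) (hK0 : 0 ≤ K) :
    Tendsto (fun T : ℝ => AN (qf (d T) (h T)) * Real.exp (qf (d T) (h T) (k T)) /
      (aV (cc (k T)) (cc (k T)) (h T)).re *
      ((1 / T) * ∫ t in (0:ℝ)..T, OI (k T) 0 (XV (d T) (h T) (k T) t)) * ∏ j, (2 * |k T j|)) atTop (𝓝 1) := by
  obtain ⟨ν, hν, hred⟩ := red hJ hP hZ hE hd hh hc hq k hkk hK0
  have hr := hred (fun T => OI (k T) 0) 1 (fun T => OI_meas _ _)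
    (fun T x => by rw [abs_of_nonneg (OI_nonneg _ _ _)]; exact OI_le _ _ _)
  have hpos : ∀ᶠ T in atTop, IsFiniteMeasure (ν T) ∧ 0 ≤ AN (qf (d T) (h T)) := by
    filter_upwards [hν.fin, hν.fm, hν.tL.eventually_gt_atTop 0] with T f1 f2 f3
    exact ⟨f1, div_nonneg (by positivity) (f2.pos hν.c0 hν.C0 f3).le⟩
  refine tendsto_of_subseq_tendsto fun u hu => ?_
  obtain ⟨k0, -, φ, hφ, hlim⟩ := (isCompact_closedBall (0 : Fin m → ℝ) K).tendsto_subseq (x := fun n => k (u n))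
    (fun n => mem_closedBall_zero_iff.2 ((pi_norm_le_iff_of_nonneg hK0).2 (fun j => hkk _ j)))
  refine ⟨φ, ?_⟩
  have hv : Tendsto (fun n => u (φ n)) atTop atTop := hu.comp hφ.tendsto_atTop
  have hlj : ∀ j, Tendsto (fun n => k (u (φ n)) j) atTop (𝓝 (k0 j)) := fun j =>
    ((continuous_apply j).tendsto k0).comp hlim
  have hk0 : ∀ j, κ ≤ |k0 j| := fun j => ge_of_tendsto (hlj j).abs (Eventually.of_forall fun n => hk1 _ j)
  have hk0n : ∀ j, k0 j ≠ 0 := fun j h0 => by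
    have := hk0 j
    rw [h0, abs_zero] at this
    linarith
  have hsg : ∀ᶠ n in atTop, ∀ j, 0 < k (u (φ n)) j * k0 j := by
    refine eventually_all.2 fun j => ?_
    have h1 := (hlj j).mul_const (k0 j)
    exact h1.eventually (lt_mem_nhds (mul_self_pos.2 (hk0n j)))
  obtain ⟨C, hC0, hC⟩ := OI_lip (m := m) hκ
  obtain ⟨M0, hM0⟩ := wb hk0n 0
  have hec : Continuous fun x : Fin m → ℝ => Real.exp (-(∑ j, 2 * k0 j * x j)) := by fun_prop
  have hwc : Continuous fun x : Fin m → ℝ => (∏ j, (1 + x j ^ 2))⁻¹ := by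
    refine Continuous.inv₀ (by fun_prop) fun x => ?_
    have := prod_ge_one x
    linarith
  have h1 := (llt hν (fun x => Real.exp (-(∑ j, 2 * k0 j * x j)) * OI k0 0 x) (bdy 0) (bdy_null 0)
    (hec.measurable.mul (OI_meas _ _)) (fun x hx => hec.continuousAt.mul (OI_cont hk0n 0 x hx)) M0 hM0).comp hv
  have h2 := (llt hν (fun x => (∏ j, (1 + x j ^ 2))⁻¹) ∅ measure_empty hwc.measurable
    (fun x _ => hwc.continuousAt) 1 (fun x => by
      have := prod_ge_one x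
      rw [abs_of_pos (by positivity), inv_mul_cancel₀ (by positivity)])).comp hv
  rw [OI_int hk0n] at h1
  have hdz : Tendsto (fun n => C * (∑ j, |k (u (φ n)) j - k0 j|)) atTop (𝓝 0) := by
    have h3 : Tendsto (fun n => ∑ j, |k (u (φ n)) j - k0 j|) atTop (𝓝 (∑ j : Fin m, |k0 j - k0 j|)) :=
      tendsto_finsetSum _ fun j _ => ((hlj j).sub_const (k0 j)).abs
    have h4 := h3.const_mul C
    simpa using h4
  have h3 := hdz.mul h2
  rw [zero_mul] at h3
  have h4 : Tendsto (fun n => AN (qf (d (u (φ n))) (h (u (φ n)))) *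
      (∫ x, Real.exp (-(∑ j, 2 * k (u (φ n)) j * x j)) * OI (k (u (φ n))) 0 x ∂(ν (u (φ n)))) -
      AN (qf (d (u (φ n))) (h (u (φ n)))) * ∫ x, Real.exp (-(∑ j, 2 * k0 j * x j)) * OI k0 0 x ∂(ν (u (φ n))))
      atTop (𝓝 0) := by
    refine squeeze_zero_norm' ?_ h3
    filter_upwards [hsg, hv.eventually hpos] with n hn hpn
    obtain ⟨hfin, hA⟩ := hpn
    have hkn : ∀ j, k (u (φ n)) j ≠ 0 := fun j h0 => by
      have := hk1 (u (φ n)) j
      rw [h0, abs_zero] at this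
      linarith
    have i1 := wb_int hkn 0 (ν (u (φ n)))
    have i2 := wb_int hk0n 0 (ν (u (φ n)))
    have i3 : Integrable (fun x : Fin m → ℝ => (∏ j, (1 + x j ^ 2))⁻¹) (ν (u (φ n))) := by
      refine Integrable.of_bound (C := 1) hwc.measurable.aestronglyMeasurable (Eventually.of_forall fun x => ?_)
      have := prod_ge_one x
      rw [Real.norm_of_nonneg (by positivity)]
      exact inv_le_one_of_one_le₀ this
    rw [← mul_sub, ← integral_sub i1 i2, norm_mul, Real.norm_of_nonneg hA]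
    simp only [Function.comp_apply]
    have e1 : C * (∑ j, |k (u (φ n)) j - k0 j|) * (AN (qf (d (u (φ n))) (h (u (φ n)))) *
        ∫ x, (∏ j, (1 + x j ^ 2))⁻¹ ∂(ν (u (φ n)))) =
        AN (qf (d (u (φ n))) (h (u (φ n)))) *
        ∫ x, C * (∑ j, |k (u (φ n)) j - k0 j|) * (∏ j, (1 + x j ^ 2))⁻¹ ∂(ν (u (φ n))) := by
      rw [integral_const_mul]
      ring
    rw [e1]
    refine mul_le_mul_of_nonneg_left ?_ hA
    refine norm_integral_le_of_norm_le (i3.const_mul _) (Eventually.of_forall fun x => ?_)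
    rw [OI_congr hn x, ← sub_mul, Real.norm_eq_abs]
    exact hC _ _ (hk1 _) hk0 hn x
  have h5 := (hr.comp hv)
  have h6 := (h4.add h1).sub h5
  have h7 : Tendsto (fun n => ∏ j, (2 * |k (u (φ n)) j|)) atTop (𝓝 (∏ j, (2 * |k0 j|))) :=
    tendsto_finsetProd _ fun j _ => (hlj j).abs.const_mul 2
  have h8 := h6.mul h7
  have e2 : (0 + ∏ j, Real.exp (2 * k0 j * (0 : Fin m → ℝ) j) / (2 * |k0 j|) - 0) * ∏ j, (2 * |k0 j|) = 1 := by
    rw [zero_add, sub_zero, ← Finset.prod_mul_distrib]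
    refine Finset.prod_eq_one fun j _ => ?_
    have := hk0 j
    have h9 : 2 * |k0 j| ≠ 0 := by linarith
    rw [Pi.zero_apply, mul_zero, Real.exp_zero]
    exact one_div_mul_cancel h9
  rw [e2] at h8
  refine h8.congr fun n => ?_
  simp only [Function.comp_apply]
  ring

lemma OI_mono {k b b' : Fin m → ℝ} (hb : ∀ j, k j * b j ≤ k j * b' j) (x : Fin m → ℝ) : OI k b x ≤ OI k b' x := by
  unfold OI
  refine Finset.prod_le_prod (fun j _ => i1_nonneg _ _ _) fun j _ => ?_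
  unfold i1
  have h1 := hb j
  split_ifs with h2 h3 h3
  · exact le_rfl
  · exfalso
    apply h3
    rw [mul_add] at h2 ⊢
    linarith
  · norm_num
  · exact le_rfl

/-- orthants, varying corners -/
theorem orthB (hJ : S_JM) (hP : S_POSV) (hZ : S_LZB) (hE : Run7.h291.WN.S_EQC) {d : ℝ → ℝ} (hd : Ad d)
    {h : ℝ → Fin m → ℝ} (hh : ∀ᶠ T : ℝ in atTop, ∀ j, |h T j| ≤ T ^ ((1:ℝ) / 2)) {c : ℝ} (hc : 0 < c)
    (hq : ∀ᶠ T : ℝ in atTop, ∀ ξ : Fin m → ℝ, c * (Real.log (1 / d T) * ∑ j, ξ j ^ 2) ≤ qf (d T) (h T) ξ)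
    {k : Fin m → ℝ} (hk : ∀ j, k j ≠ 0) {β : ℝ → Fin m → ℝ} {b : Fin m → ℝ}
    (hβ : ∀ j, Tendsto (fun T => β T j) atTop (𝓝 (b j))) :
    Tendsto (fun T : ℝ => AN (qf (d T) (h T)) * Real.exp (qf (d T) (h T) k) / (aV (cc k) (cc k) (h T)).re *
      ((1 / T) * ∫ t in (0:ℝ)..T, OI k (β T) (XV (d T) (h T) k t))) atTop
      (𝓝 (∏ j, Real.exp (2 * k j * b j) / (2 * |k j|))) := by
  set G : (Fin m → ℝ) → ℝ → ℝ := fun b' T => AN (qf (d T) (h T)) * Real.exp (qf (d T) (h T) k) /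
    (aV (cc k) (cc k) (h T)).re * ((1 / T) * ∫ t in (0:ℝ)..T, OI k b' (XV (d T) (h T) k t)) with hG
  have hlim : ∀ b' : Fin m → ℝ, Tendsto (G b') atTop (𝓝 (∏ j, Real.exp (2 * k j * b' j) / (2 * |k j|))) := by
    intro b'
    obtain ⟨M, hM1, hM⟩ := OI_bd hk b'
    have h1 := ld hJ hP hZ hE hd hh hc hq k (OI k b') (bdy b') (bdy_null b') (OI_meas _ _)
      (fun x hx => OI_cont hk b' x hx) M (fun x => by
        rw [abs_of_nonneg (OI_nonneg _ _ _)]
        exact (OI_le _ _ _).trans hM1) hM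
    rw [OI_int hk] at h1
    exact h1
  have hK0 : 0 ≤ ∑ i, |k i| := Finset.sum_nonneg fun j _ => abs_nonneg _
  have hkk : ∀ j, |k j| ≤ ∑ i, |k i| := fun j =>
    Finset.single_le_sum (f := fun i => |k i|) (fun i _ => abs_nonneg _) (mem_univ j)
  obtain ⟨c1, C1, hc1, hC1, hPo⟩ := hP m (∑ i, |k i|) hK0
  obtain ⟨ν, hν, -⟩ := red hJ hP hZ hE hd hh hc hq (fun _ => k) (fun _ => hkk) hK0
  have hsm : ∀ᶠ T : ℝ in atTop, 0 < d T ∧ d T ≤ 1 / 16 ∧ 1 ≤ T := by
    filter_upwards [hd.pos, hd.t0.eventually_le_const (show (0 : ℝ) < 1 / 16 by norm_num),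
      eventually_ge_atTop 1] with T a b c
    exact ⟨a, b, c⟩
  have hpre : ∀ᶠ T : ℝ in atTop, 0 ≤ AN (qf (d T) (h T)) * Real.exp (qf (d T) (h T) k) /
      (aV (cc k) (cc k) (h T)).re ∧ 0 < d T ∧ d T ≤ 1 / 16 ∧ 1 ≤ T := by
    filter_upwards [hν.fm, hν.tL.eventually_gt_atTop 0, hsm] with T f2 f3 f4
    have h1 := (f2.pos hν.c0 hν.C0 f3).le
    obtain ⟨a, ha1, ha2⟩ := (hPo (h T)).2 k hkk
    have ha2' : aV (cc k) (cc k) (h T) = a := ha2
    have h2 : 0 ≤ (aV (cc k) (cc k) (h T)).re := by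
      rw [ha2', Complex.ofReal_re]
      linarith
    have h3 : 0 ≤ AN (qf (d T) (h T)) := div_nonneg (by positivity) h1
    exact ⟨div_nonneg (mul_nonneg h3 (Real.exp_pos _).le) h2, f4⟩
  have hmono : ∀ᶠ T : ℝ in atTop, ∀ b1 b2 : Fin m → ℝ, (∀ j, k j * b1 j ≤ k j * b2 j) → G b1 T ≤ G b2 T := by
    filter_upwards [hpre] with T hT b1 b2 hb
    obtain ⟨hp, h0, h1, hT1⟩ := hT
    rw [hG]
    simp only
    refine mul_le_mul_of_nonneg_left (mul_le_mul_of_nonneg_left ?_ (by positivity)) hp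
    have hi : ∀ b' : Fin m → ℝ, IntervalIntegrable (fun t => OI k b' (XV (d T) (h T) k t)) volume 0 T := by
      intro b'
      rw [intervalIntegrable_iff_integrableOn_Ioc_of_le (by linarith)]
      refine Measure.integrableOn_of_bounded (M := 1) ?_ ?_ ?_
      · rw [Real.volume_Ioc]
        exact ENNReal.ofReal_ne_top
      · exact ((OI_meas k b').comp (XV_meas h0 h1 (h T) k)).aestronglyMeasurable
      · refine Eventually.of_forall fun t => ?_
        rw [Real.norm_of_nonneg (OI_nonneg _ _ _)]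
        exact OI_le _ _ _
    exact intervalIntegral.integral_mono_on (by linarith) (hi b1) (hi b2) fun t _ => OI_mono hb _
  -- the corner `b + ε k`
  have hcont : Continuous fun ε : ℝ => ∏ j, Real.exp (2 * k j * (b j + ε * k j)) / (2 * |k j|) := by fun_prop
  have hc0 : ∏ j, Real.exp (2 * k j * (b j + 0 * k j)) / (2 * |k j|) = ∏ j, Real.exp (2 * k j * b j) / (2 * |k j|) := by
    simp
  have hkb : ∀ j, Tendsto (fun T => k j * β T j) atTop (𝓝 (k j * b j)) := fun j => (hβ j).const_mul (k j)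
  have hk2 : ∀ j, 0 < k j ^ 2 := fun j => by
    have := hk j
    positivity
  rw [tendsto_order]
  constructor
  · intro a ha
    rw [← hc0] at ha
    have h1 : ∀ᶠ ε in 𝓝 (0:ℝ), a < ∏ j, Real.exp (2 * k j * (b j + ε * k j)) / (2 * |k j|) :=
      hcont.continuousAt.eventually (lt_mem_nhds ha)
    obtain ⟨r, hr, hr2⟩ := Metric.eventually_nhds_iff.1 h1
    have h2 : a < ∏ j, Real.exp (2 * k j * (b j + (-(r / 2)) * k j)) / (2 * |k j|) := by
      apply hr2
      rw [Real.dist_eq, sub_zero, abs_neg, abs_of_pos (by positivity)]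
      linarith
    have h3 : ∀ᶠ T in atTop, a < G (fun j => b j + (-(r / 2)) * k j) T := (hlim _).eventually (lt_mem_nhds h2)
    have h4 : ∀ᶠ T in atTop, ∀ j, k j * b j - r / 2 * k j ^ 2 ≤ k j * β T j := by
      refine eventually_all.2 fun j => ?_
      refine (hkb j).eventually_const_le ?_
      have := mul_pos (half_pos hr) (hk2 j)
      linarith
    filter_upwards [h3, h4, hmono] with T a1 a2 a3
    refine lt_of_lt_of_le a1 (a3 _ _ fun j => ?_)
    have := a2 j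
    calc k j * (b j + -(r / 2) * k j) = k j * b j - r / 2 * k j ^ 2 := by ring
      _ ≤ k j * β T j := this
  · intro a ha
    rw [← hc0] at ha
    have h1 : ∀ᶠ ε in 𝓝 (0:ℝ), ∏ j, Real.exp (2 * k j * (b j + ε * k j)) / (2 * |k j|) < a :=
      hcont.continuousAt.eventually (gt_mem_nhds ha)
    obtain ⟨r, hr, hr2⟩ := Metric.eventually_nhds_iff.1 h1
    have h2 : ∏ j, Real.exp (2 * k j * (b j + (r / 2) * k j)) / (2 * |k j|) < a := by
      apply hr2
      rw [Real.dist_eq, sub_zero, abs_of_pos (by positivity)]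
      linarith
    have h3 : ∀ᶠ T in atTop, G (fun j => b j + (r / 2) * k j) T < a := (hlim _).eventually (gt_mem_nhds h2)
    have h4 : ∀ᶠ T in atTop, ∀ j, k j * β T j ≤ k j * b j + r / 2 * k j ^ 2 := by
      refine eventually_all.2 fun j => ?_
      refine (hkb j).eventually_le_const ?_
      have := mul_pos (half_pos hr) (hk2 j)
      linarith
    filter_upwards [h3, h4, hmono] with T a1 a2 a3
    refine lt_of_le_of_lt (a3 _ _ fun j => ?_) a1
    have := a2 j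
    calc k j * β T j ≤ k j * b j + r / 2 * k j ^ 2 := this
      _ = k j * (b j + r / 2 * k j) := by ring

end Run7.h42.LP
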