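import Pool.Agent.N748.MJ.POSV
import Pool.Agent.N748.MJ.GVB
import Pool.Agent.N748.MJ.BND
import Pool.Agent.N748.MJ.SM

set_option autoImplicit false

/-!
# Joint large deviations of zeta at arbitrary shifts (helper42): the arithmetic factor
-/

namespace Run7.h42.LP

open Finset Filter MeasureTheory Topology Complex
open Pool.Agent.N748.MG Pool.Agent.N748.MJ Pool.Agent.N748.MJ.POSV
open Pool.Agent.N748.MJ.SM (cc)

variable {m : ℕ}

/-- the coefficient of `x ^ n` in `(1 - x) ^ (-k)` -/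
noncomputable def binom (k : ℝ) (n : ℕ) : ℝ := ∏ i ∈ range n, (k + i) / (i + 1)

/-- the coefficient of `x ^ n` in `∏ j, (1 - p ^ (-i h j) x) ^ (-k j)` -/
noncomputable def coef (k h : Fin m → ℝ) (p n : ℕ) : ℂ :=
  ∑ μ ∈ piAntidiag univ n, ∏ j, (binom (k j) (μ j) : ℂ) * (p : ℂ) ^ (-(((μ j : ℝ) * h j : ℝ) * I))

/-- the arithmetic factor -/
noncomputable def arith (k h : Fin m → ℝ) : ℝ :=
  ∏' p : Nat.Primes, (∏ j, ∏ l, ‖1 - ((p : ℕ) : ℂ) ^ (-(1 + ((h j - h l : ℝ) : ℂ) * I))‖ ^ (k j * k l)) *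
    ∑' n : ℕ, ‖coef k h p n‖ ^ 2 / ((p : ℕ) : ℝ) ^ n

lemma lC_binom (k : ℝ) (n : ℕ) : lC (k : ℂ) n = (binom k n : ℂ) := by
  unfold lC binom
  push_cast
  rfl

lemma lV_coef (k h : Fin m → ℝ) (p n : ℕ) : lV (cc k) h p n = coef k h p n := by
  unfold lV coef cc
  refine Finset.sum_congr rfl fun μ _ => Finset.prod_congr rfl fun j _ => ?_
  rw [lC_binom]

lemma bs_eq (p : ℕ) (u : ℝ) : bs p u = 1 - (p : ℂ) ^ (-(1 + (u : ℂ) * I)) := by
  unfold bs pu
  norm_num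

/-- the local factor -/
lemma gV_norm (k h : Fin m → ℝ) {p : ℕ} (hp : p.Prime) :
    ‖gV (cc k) (cc k) h 0 p‖ =
      (∏ j, ∏ l, ‖1 - (p : ℂ) ^ (-(1 + ((h j - h l : ℝ) : ℂ) * I))‖ ^ (k j * k l)) *
      ∑' n : ℕ, ‖coef k h p n‖ ^ 2 / (p : ℝ) ^ n := by
  rw [gV_eq, norm_mul, norm_prod]
  congr 1
  · refine Finset.prod_congr rfl fun j _ => ?_
    rw [norm_prod]
    refine Finset.prod_congr rfl fun l _ => ?_
    unfold cc
    rw [← Complex.ofReal_mul, Complex.norm_cpow_real, bs_eq]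
  · have hcj : cj (cc k) = cc k := by
      funext j
      unfold cj cc
      exact Complex.conj_ofReal _
    have hterm : ∀ n : ℕ, lV (cc k) h p n * (starRingEnd ℂ) (lV (cj (cc k)) h p n) *
        (((p : ℝ) ^ (-(1 + 2 * (0 : ℝ))) : ℝ) : ℂ) ^ n = ((‖coef k h p n‖ ^ 2 / (p : ℝ) ^ n : ℝ) : ℂ) := by
      intro n
      rw [hcj, Complex.mul_conj', lV_coef, xp]
      push_cast
      rw [one_div, inv_pow, div_eq_mul_inv]
    unfold SV
    simp_rw [hterm]
    rw [← Complex.ofReal_tsum, Complex.norm_real, Real.norm_of_nonneg]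
    exact tsum_nonneg fun n => by positivity

/-- the arithmetic factor -/
theorem aV_arith (k h : Fin m → ℝ) : (aV (cc k) (cc k) h).re = arith k h := by
  have hK0 : 0 ≤ ∑ i, |k i| := Finset.sum_nonneg fun j _ => abs_nonneg _
  have hkk : ∀ j, |k j| ≤ ∑ i, |k i| := fun j =>
    Finset.single_le_sum (f := fun i => |k i|) (fun i _ => abs_nonneg _) (mem_univ j)
  have hkn : ∀ j, ‖cc k j‖ ≤ ∑ i, |k i| := fun j => by
    unfold cc
    rw [Complex.norm_real]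
    exact hkk j
  obtain ⟨C, hC0, hC⟩ := GVB.main BND.main m (∑ i, |k i|) hK0
  obtain ⟨c1, C1, hc1, hC1, hPo⟩ := POSV.main BND.main (GVB.main BND.main) m (∑ i, |k i|) hK0
  obtain ⟨a, ha1, ha2⟩ := (hPo h).2 k hkk
  have ha2' : aV (cc k) (cc k) h = a := ha2
  have hs : Summable fun p : Nat.Primes => gV (cc k) (cc k) h 0 p - 1 :=
    Summable.of_norm_bounded (sum_px C) fun p => (hC _ _ h hkn hkn p p.2 0 le_rfl zero_le_one).1
  have hm := (Complex.multipliable_one_add_of_summable hs).hasProd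
  rw [← aV_eq] at hm
  have h1 := hm.norm
  have h2 : HasProd (fun p : Nat.Primes =>
      (∏ j, ∏ l, ‖1 - ((p : ℕ) : ℂ) ^ (-(1 + ((h j - h l : ℝ) : ℂ) * I))‖ ^ (k j * k l)) *
      ∑' n : ℕ, ‖coef k h p n‖ ^ 2 / ((p : ℕ) : ℝ) ^ n) ‖aV (cc k) (cc k) h‖ := by
    refine h1.congr_fun ?_
    intro p
    rw [← gV_norm k h p.2, add_sub_cancel]
  unfold arith
  rw [h2.tprod_eq, ha2', Complex.ofReal_re, Complex.norm_real, Real.norm_of_nonneg (by linarith)]

theorem arith_pos (k h : Fin m → ℝ) : 0 < arith k h := by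
  have hK0 : 0 ≤ ∑ i, |k i| := Finset.sum_nonneg fun j _ => abs_nonneg _
  have hkk : ∀ j, |k j| ≤ ∑ i, |k i| := fun j =>
    Finset.single_le_sum (f := fun i => |k i|) (fun i _ => abs_nonneg _) (mem_univ j)
  obtain ⟨c1, C1, hc1, hC1, hPo⟩ := POSV.main BND.main (GVB.main BND.main) m (∑ i, |k i|) hK0
  obtain ⟨a, ha1, ha2⟩ := (hPo h).2 k hkk
  have ha2' : aV (cc k) (cc k) h = a := ha2
  rw [← aV_arith, ha2', Complex.ofReal_re]
  linarith

end Run7.h42.LP
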