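import Pool.Agent.Run7.h42.LP.App5
import Pool.Agent.Run7.h42.LP.Ari

set_option autoImplicit false

/-!
# Joint large deviations of zeta at arbitrary shifts (helper42): fixed distinct shifts
-/

namespace Run7.h42.LP

open Finset Filter MeasureTheory Topology Complex
open Pool.Agent.N748.MG Pool.Agent.N748.MJ
open Pool.Agent.N748.MJ.SM (cc)

variable {m : ℕ}

/-- `log (1/(2δ))` -/
noncomputable def LL (δ : ℝ) : ℝ := Real.log (1 / (2 * δ))

/-- the covariances without the main term -/
noncomputable def rr (h : Fin m → ℝ) (δ : ℝ) (j l : Fin m) : ℝ := RL δ h j l - if j = l then LL δ else 0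

/-- the limits -/
noncomputable def ro (h : Fin m → ℝ) (j l : Fin m) : ℝ :=
  if j = l then 0 else Real.log ‖riemannZeta (1 + ((h j - h l : ℝ) : ℂ) * I)‖

lemma rr_lim (hZ : S_LZB) {h : Fin m → ℝ} (hh : Function.Injective h) {d : ℝ → ℝ} (hd : Ad d) (j l : Fin m) :
    Tendsto (fun T => rr h (d T) j l) atTop (𝓝 (ro h j l)) := by
  have hsm : ∀ᶠ T : ℝ in atTop, 0 < d T ∧ d T ≤ 1 / 16 := by
    filter_upwards [hd.pos, hd.t0.eventually_le_const (show (0 : ℝ) < 1 / 16 by norm_num)] with T a b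
    exact ⟨a, b⟩
  have hdc : Tendsto (fun T => ((2 * d T : ℝ) : ℂ)) atTop (𝓝 0) := by
    have h1 := hd.t0.const_mul 2
    rw [mul_zero] at h1
    have h2 := (Complex.continuous_ofReal.tendsto 0).comp h1
    rw [Complex.ofReal_zero] at h2
    exact h2
  by_cases hjl : j = l
  · subst hjl
    unfold ro rr
    rw [if_pos rfl]
    have h1 : Tendsto (fun T => (1 + ((2 * d T : ℝ) : ℂ))) atTop (𝓝[≠] 1) := by
      rw [tendsto_nhdsWithin_iff]
      constructor
      · have := hdc.const_add 1
        rwa [add_zero] at this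
      · filter_upwards [hsm] with T hT
        simp only [Set.mem_compl_iff, Set.mem_singleton_iff, add_eq_left]
        have : (2 * d T : ℝ) ≠ 0 := by linarith [hT.1]
        exact_mod_cast this
    have h2 := (riemannZeta_residue_one.comp h1).norm
    rw [norm_one] at h2
    have h3 := (Real.continuousAt_log (one_ne_zero)).tendsto.comp h2
    rw [Real.log_one] at h3
    refine h3.congr' ?_
    filter_upwards [hsm] with T hT
    simp only [Function.comp_apply, if_true]
    rw [RL_log hZ hT.1 hT.2, sub_self, Complex.ofReal_zero, zero_mul, add_zero, add_sub_cancel_left, norm_mul,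
      Complex.norm_real, Real.norm_of_nonneg (by linarith [hT.1])]
    have hz : riemannZeta (1 + ((2 * d T : ℝ) : ℂ)) ≠ 0 :=
      riemannZeta_ne_zero_of_one_le_re (by simp; linarith [hT.1])
    have e1 : ((1 + 2 * d T : ℝ) : ℂ) = 1 + ((2 * d T : ℝ) : ℂ) := by push_cast; rfl
    rw [e1, Real.log_mul (by linarith [hT.1]) (norm_ne_zero_iff.2 hz)]
    unfold LL
    rw [one_div, Real.log_inv]
    ring
  · unfold ro rr
    rw [if_neg hjl]
    simp only [if_neg hjl, sub_zero]
    have hne : h j - h l ≠ 0 := sub_ne_zero.2 fun h0 => hjl (hh h0)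
    have hz1 : (1 : ℂ) + ((h j - h l : ℝ) : ℂ) * I ≠ 1 := by
      intro h0
      have h1 : ((h j - h l : ℝ) : ℂ) * I = 0 := by linear_combination h0
      rcases mul_eq_zero.1 h1 with h2 | h2
      · exact hne (by exact_mod_cast h2)
      · exact I_ne_zero h2
    have hcont : ContinuousAt riemannZeta (1 + ((h j - h l : ℝ) : ℂ) * I) :=
      (differentiableAt_riemannZeta hz1).continuousAt
    have hnz : riemannZeta (1 + ((h j - h l : ℝ) : ℂ) * I) ≠ 0 :=
      riemannZeta_ne_zero_of_one_le_re (by simp)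
    have h1 : Tendsto (fun T => ((1 + 2 * d T : ℝ) : ℂ) + ((h j - h l : ℝ) : ℂ) * I) atTop
        (𝓝 (1 + ((h j - h l : ℝ) : ℂ) * I)) := by
      have h2 := (hdc.const_add 1).add_const (((h j - h l : ℝ) : ℂ) * I)
      rw [add_zero] at h2
      refine h2.congr fun T => ?_
      push_cast
      ring
    have h2 := (hcont.tendsto.comp h1).norm
    have h3 := (Real.continuousAt_log (norm_ne_zero_iff.2 hnz)).tendsto.comp h2
    refine h3.congr' ?_
    filter_upwards [hsm] with T hT
    simp only [Function.comp_apply]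
    rw [RL_log hZ hT.1 hT.2]

lemma LL_lim {d : ℝ → ℝ} (hd : Ad d) : Tendsto (fun T => LL (d T)) atTop atTop := by
  have h1 : Tendsto (fun T => 2 * d T) atTop (𝓝[>] 0) := by
    rw [tendsto_nhdsWithin_iff]
    constructor
    · have := hd.t0.const_mul 2
      rwa [mul_zero] at this
    · filter_upwards [hd.pos] with T hT
      exact mul_pos two_pos hT
  have h2 := Real.tendsto_log_nhdsGT_zero.comp h1
  have h3 := tendsto_neg_atBot_atTop.comp h2
  refine h3.congr fun T => ?_
  simp only [Function.comp_apply]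
  unfold LL
  rw [one_div, Real.log_inv]

lemma sum_LL (h k ξ : Fin m → ℝ) (δ : ℝ) : ∑ j, ∑ l, k j * ξ l * RL δ h j l =
    LL δ * (∑ j, k j * ξ j) + ∑ j, ∑ l, k j * ξ l * rr h δ j l := by
  have e : ∀ j l : Fin m, k j * ξ l * RL δ h j l = (if j = l then LL δ * (k j * ξ l) else 0) + k j * ξ l * rr h δ j l := by
    intro j l
    unfold rr
    split_ifs <;> ring
  simp_rw [e, Finset.sum_add_distrib]
  congr 1
  rw [Finset.mul_sum]
  refine Finset.sum_congr rfl fun j _ => ?_
  rw [Finset.sum_ite_eq]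
  simp

lemma qf_LL (h k : Fin m → ℝ) (δ : ℝ) : qf δ h k = LL δ * (∑ j, k j ^ 2) + ∑ j, ∑ l, k j * k l * rr h δ j l := by
  unfold qf
  rw [sum_LL]
  congr 2
  exact Finset.sum_congr rfl fun j _ => by ring

lemma me_LL (h k : Fin m → ℝ) (δ : ℝ) (j : Fin m) : me δ h k j = k j * LL δ + ∑ l, k l * rr h δ j l := by
  unfold me rr
  simp_rw [mul_sub]
  rw [Finset.sum_sub_distrib]
  simp

/-- separation of fixed distinct shifts -/
lemma sep_fixed (hZ : S_LZB) {h : Fin m → ℝ} (hh : Function.Injective h) {d : ℝ → ℝ} (hd : Ad d) :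
    ∀ᶠ T : ℝ in atTop, ∀ ξ : Fin m → ℝ, 1 / 2 * (Real.log (1 / d T) * ∑ j, ξ j ^ 2) ≤ qf (d T) h ξ := by
  have h1 : ∀ᶠ T : ℝ in atTop, ∀ j l, |rr h (d T) j l| ≤ |ro h j l| + 1 := by
    refine eventually_all.2 fun j => eventually_all.2 fun l => ?_
    exact (rr_lim hZ hh hd j l).abs.eventually_le_const (by linarith)
  set B : ℝ := ∑ j : Fin m, ∑ l : Fin m, (|ro h j l| + 1) with hB
  have hsm : ∀ᶠ T : ℝ in atTop, 0 < d T := hd.pos
  filter_upwards [h1, hsm, (LL_lim hd).eventually_ge_atTop (2 * B + 2)] with T a1 a2 a3 ξ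
  rw [qf_LL]
  have hS0 : 0 ≤ ∑ j, ξ j ^ 2 := Finset.sum_nonneg fun j _ => sq_nonneg _
  have h2 : |∑ j, ∑ l, ξ j * ξ l * rr h (d T) j l| ≤ B * ∑ j, ξ j ^ 2 := by
    refine (Finset.abs_sum_le_sum_abs _ _).trans ?_
    rw [hB, Finset.sum_mul]
    refine Finset.sum_le_sum fun j _ => (Finset.abs_sum_le_sum_abs _ _).trans ?_
    rw [Finset.sum_mul]
    refine Finset.sum_le_sum fun l _ => ?_
    rw [abs_mul, mul_comm]
    refine mul_le_mul (a1 j l) ?_ (abs_nonneg _) (by positivity)
    have h3 := Finset.single_le_sum (f := fun i => ξ i ^ 2) (fun i _ => sq_nonneg _) (mem_univ j)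
    have h4 := Finset.single_le_sum (f := fun i => ξ i ^ 2) (fun i _ => sq_nonneg _) (mem_univ l)
    rw [abs_le]
    constructor <;> nlinarith [sq_nonneg (ξ j + ξ l), sq_nonneg (ξ j - ξ l)]
  have h5 := (abs_le.1 h2).1
  have h6 : Real.log (1 / d T) = LL (d T) + Real.log 2 := by
    unfold LL
    rw [one_div, one_div, Real.log_inv, Real.log_inv, Real.log_mul two_ne_zero a2.ne']
    ring
  have h7 : Real.log 2 ≤ 1 := by linarith [Real.log_two_lt_d9]
  rw [h6]
  have h8 : (1 / 2 * (LL (d T) + Real.log 2) + B) * ∑ j, ξ j ^ 2 ≤ LL (d T) * ∑ j, ξ j ^ 2 :=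
    mul_le_mul_of_nonneg_right (by linarith) hS0
  linarith

/-- the determinant for fixed distinct shifts -/
lemma det_lim (hZ : S_LZB) {h : Fin m → ℝ} (hh : Function.Injective h) {d : ℝ → ℝ} (hd : Ad d) :
    Tendsto (fun T => Real.sqrt (Matrix.det (Matrix.of fun j l => RL (d T) h j l)) / Real.sqrt (LL (d T)) ^ m)
      atTop (𝓝 1) := by
  have h1 : ∀ j l : Fin m, Tendsto (fun T => RL (d T) h j l / LL (d T)) atTop (𝓝 (if j = l then 1 else 0)) := by
    intro j l
    have h2 : Tendsto (fun T => rr h (d T) j l / LL (d T)) atTop (𝓝 0) :=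
      (rr_lim hZ hh hd j l).div_atTop (LL_lim hd)
    have h3 := h2.const_add (if j = l then (1:ℝ) else 0)
    rw [add_zero] at h3
    refine h3.congr' ?_
    filter_upwards [(LL_lim hd).eventually_gt_atTop 0] with T hT
    unfold rr
    split_ifs
    · field_simp
      ring
    · rw [sub_zero, zero_add]
  have h2 : Tendsto (fun T => Matrix.of (fun j l : Fin m => RL (d T) h j l / LL (d T))) atTop
      (𝓝 (1 : Matrix (Fin m) (Fin m) ℝ)) := by
    refine tendsto_pi_nhds.2 fun j => tendsto_pi_nhds.2 fun l => ?_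
    have := h1 j l
    rw [Matrix.one_apply]
    exact this
  have hdc : Continuous fun M : Matrix (Fin m) (Fin m) ℝ => M.det := Continuous.matrix_det continuous_id
  have h3 := (hdc.tendsto 1).comp h2
  rw [Matrix.det_one] at h3
  have h4 := (Real.continuous_sqrt.tendsto 1).comp h3
  rw [Real.sqrt_one] at h4
  refine h4.congr' ?_
  filter_upwards [(LL_lim hd).eventually_gt_atTop 0] with T hT
  simp only [Function.comp_apply]
  have e1 : Matrix.of (fun j l : Fin m => RL (d T) h j l / LL (d T)) =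
      (LL (d T))⁻¹ • Matrix.of (fun j l : Fin m => RL (d T) h j l) := by
    ext j l
    simp only [Matrix.of_apply, Matrix.smul_apply, smul_eq_mul]
    rw [div_eq_mul_inv, mul_comm]
  rw [e1, Matrix.det_smul, Fintype.card_fin, Real.sqrt_mul (by positivity), inv_pow, Real.sqrt_inv, mul_comm,
    ← div_eq_mul_inv]
  congr 1
  have e2 : LL (d T) ^ m = (Real.sqrt (LL (d T)) ^ m) ^ 2 := by
    rw [← pow_mul, mul_comm, pow_mul, Real.sq_sqrt hT.le]
  rw [e2, Real.sqrt_sq (by positivity)]

end Run7.h42.LP
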