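import Pool.Agent.N748.MG.LLT
import Pool.Agent.N748.MJ.LLT2

set_option autoImplicit false

/-!
# Joint large deviations of zeta at arbitrary shifts (helper42): the kernel and its Fourier transform
-/

namespace Run7.h42.LP

open Finset Filter MeasureTheory Topology Complex
open Pool.Agent.N748.MG.LLT (k0 k0_cont k0_pos k0_ge k0_le k0_int)

/-- the triangle -/
noncomputable def tri (a : ℝ) : ℝ := max (2 - |a|) 0

lemma tri_cont : Continuous tri := by
  unfold tri
  fun_prop

lemma tri_nonneg (a : ℝ) : 0 ≤ tri a := le_max_right _ _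

lemma tri_le (a : ℝ) : tri a ≤ 2 := by
  unfold tri
  exact max_le (by linarith [abs_nonneg a]) (by norm_num)

lemma tri_zero {a : ℝ} (h : 2 ≤ |a|) : tri a = 0 := by
  unfold tri
  exact max_eq_right (by linarith)

lemma tri_neg {a : ℝ} (h1 : -2 ≤ a) (h2 : a ≤ 0) : tri a = 2 + a := by
  unfold tri
  rw [abs_of_nonpos h2, max_eq_left (by linarith)]
  ring

lemma tri_pos {a : ℝ} (h1 : 0 ≤ a) (h2 : a ≤ 2) : tri a = 2 - a := by
  unfold tri
  rw [abs_of_nonneg h1, max_eq_left (by linarith)]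

lemma tri_to_interval (f : ℝ → ℂ) : ∫ a : ℝ, ((tri a : ℝ) : ℂ) * f a = ∫ a in (-2:ℝ)..2, ((tri a : ℝ) : ℂ) * f a := by
  rw [intervalIntegral.integral_of_le (by norm_num), ← integral_Icc_eq_integral_Ioc]
  refine (setIntegral_eq_integral_of_forall_compl_eq_zero fun a ha => ?_).symm
  have : 2 ≤ |a| := by
    by_contra h
    push Not at h
    rw [abs_lt] at h
    exact ha ⟨h.1.le, h.2.le⟩
  rw [tri_zero this]
  simp

/-- the Fourier transform of the triangle -/
lemma tri_fourier (y : ℝ) :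
    ∫ a : ℝ, ((tri a : ℝ) : ℂ) * Complex.exp (a * y * I) = 4 * ((Real.sinc y ^ 2 : ℝ) : ℂ) := by
  rw [tri_to_interval]
  have hc : Continuous fun a : ℝ => ((tri a : ℝ) : ℂ) * Complex.exp (a * y * I) := by
    have := tri_cont
    fun_prop
  rw [← intervalIntegral.integral_add_adjacent_intervals (b := (0:ℝ)) (hc.intervalIntegrable _ _) (hc.intervalIntegrable _ _)]
  have e1 : ∫ a in (-2:ℝ)..0, ((tri a : ℝ) : ℂ) * Complex.exp (a * y * I) =
      ∫ a in (-2:ℝ)..0, (2 + a) * Complex.exp (a * y * I) := by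
    refine intervalIntegral.integral_congr fun a ha => ?_
    rw [Set.uIcc_of_le (by norm_num)] at ha
    rw [tri_neg ha.1 ha.2]
    push_cast
    rfl
  have e2 : ∫ a in (0:ℝ)..2, ((tri a : ℝ) : ℂ) * Complex.exp (a * y * I) =
      ∫ a in (0:ℝ)..2, (2 - a) * Complex.exp (a * y * I) := by
    refine intervalIntegral.integral_congr fun a ha => ?_
    rw [Set.uIcc_of_le (by norm_num)] at ha
    rw [tri_pos ha.1 ha.2]
    push_cast
    rfl
  rw [e1, e2]
  rcases eq_or_ne y 0 with rfl | hy
  · have g1 : ∫ a in (-2:ℝ)..0, (2 + a) = 2 := by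
      rw [intervalIntegral.integral_add (f := fun _ : ℝ => (2:ℝ)) (g := fun a : ℝ => a)
        (continuous_const.intervalIntegrable _ _) ((by fun_prop : Continuous fun a : ℝ => a).intervalIntegrable _ _),
        integral_id, intervalIntegral.integral_const]
      norm_num
    have g2 : ∫ a in (0:ℝ)..2, (2 - a) = 2 := by
      rw [intervalIntegral.integral_sub (f := fun _ : ℝ => (2:ℝ)) (g := fun a : ℝ => a)
        (continuous_const.intervalIntegrable _ _) ((by fun_prop : Continuous fun a : ℝ => a).intervalIntegrable _ _),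
        integral_id, intervalIntegral.integral_const]
      norm_num
    have f1 : ∫ a in (-2:ℝ)..0, ((2:ℂ) + a) * Complex.exp (a * (0:ℝ) * I) = 2 := by
      have : ∫ a in (-2:ℝ)..0, ((2:ℂ) + a) * Complex.exp (a * (0:ℝ) * I) =
          ((∫ a in (-2:ℝ)..0, (2 + a) : ℝ) : ℂ) := by
        rw [← intervalIntegral.integral_ofReal]
        refine intervalIntegral.integral_congr fun a _ => ?_
        simp
      rw [this, g1]
      norm_num
    have f2 : ∫ a in (0:ℝ)..2, ((2:ℂ) - a) * Complex.exp (a * (0:ℝ) * I) = 2 := by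
      have : ∫ a in (0:ℝ)..2, ((2:ℂ) - a) * Complex.exp (a * (0:ℝ) * I) =
          ((∫ a in (0:ℝ)..2, (2 - a) : ℝ) : ℂ) := by
        rw [← intervalIntegral.integral_ofReal]
        refine intervalIntegral.integral_congr fun a _ => ?_
        simp
      rw [this, g2]
      norm_num
    rw [f1, f2, Real.sinc_zero]
    norm_num
  · have hyI : (y:ℂ) * I ≠ 0 := mul_ne_zero (by exact_mod_cast hy) I_ne_zero
    have hyc : (y:ℂ) ≠ 0 := by exact_mod_cast hy
    have hz2 : ((y:ℂ) * I) ^ 2 = -(y:ℂ) ^ 2 := by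
      rw [mul_pow, I_sq]
      ring
    have hsn : ((Real.sin y : ℝ) : ℂ) = (Complex.exp (-((y:ℂ) * I)) - Complex.exp ((y:ℂ) * I)) * I / 2 := by
      rw [Complex.ofReal_sin, Complex.sin]
      congr 3
      ring_nf
    have hre : ∀ a : ℝ, Complex.exp (a * y * I) = Complex.exp (a * ((y:ℂ) * I)) := fun a => by rw [mul_assoc]
    simp_rw [hre]
    rw [Real.sinc_of_ne_zero hy]
    push_cast
    rw [show Complex.sin (y:ℂ) = ((Real.sin y : ℝ) : ℂ) by push_cast; rfl, hsn]
    have hy2 : (y:ℂ) ^ 2 = -(((y:ℂ) * I) ^ 2) := by rw [hz2, neg_neg]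
    rw [div_pow, hy2]
    clear hy2 hz2 hsn hre e1 e2 hc
    generalize (y:ℂ) * I = z at *
    have hE : ∀ a : ℝ, HasDerivAt (fun a : ℝ => Complex.exp (a * z)) (Complex.exp (a * z) * z) a := by
      intro a
      have h1 : HasDerivAt (fun a : ℝ => ((a : ℝ) : ℂ) * z) (1 * z) a :=
        Complex.ofRealCLM.hasDerivAt.mul_const z
      rw [one_mul] at h1
      exact h1.cexp
    have hF : ∀ a : ℝ, HasDerivAt (fun a : ℝ => (2 - (a:ℂ)) * Complex.exp (a * z) / z +
        Complex.exp (a * z) / z ^ 2) ((2 - (a:ℂ)) * Complex.exp (a * z)) a := by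
      intro a
      have h1 : HasDerivAt (fun a : ℝ => (2 - (a:ℂ))) (-1) a := by
        have := (Complex.ofRealCLM.hasDerivAt (x := a)).const_sub 2
        simpa using this
      have h2 := (((h1.mul (hE a)).div_const z).add ((hE a).div_const (z ^ 2)))
      refine h2.congr_deriv ?_
      field_simp
      ring
    have hG : ∀ a : ℝ, HasDerivAt (fun a : ℝ => (2 + (a:ℂ)) * Complex.exp (a * z) / z -
        Complex.exp (a * z) / z ^ 2) ((2 + (a:ℂ)) * Complex.exp (a * z)) a := by
      intro a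
      have h1 : HasDerivAt (fun a : ℝ => (2 + (a:ℂ))) 1 a := by
        have := (Complex.ofRealCLM.hasDerivAt (x := a)).const_add 2
        simpa using this
      have h2 := (((h1.mul (hE a)).div_const z).sub ((hE a).div_const (z ^ 2)))
      refine h2.congr_deriv ?_
      field_simp
      ring
    rw [intervalIntegral.integral_eq_sub_of_hasDerivAt (fun a _ => hG a) (by
        apply Continuous.intervalIntegrable
        fun_prop),
      intervalIntegral.integral_eq_sub_of_hasDerivAt (fun a _ => hF a) (by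
        apply Continuous.intervalIntegrable
        fun_prop)]
    have hm : Complex.exp (((-2:ℝ):ℂ) * z) = Complex.exp (-z) ^ 2 := by
      rw [← Complex.exp_nat_mul]
      congr 1
      push_cast
      ring
    have hp : Complex.exp (((2:ℝ):ℂ) * z) = Complex.exp z ^ 2 := by
      rw [← Complex.exp_nat_mul]
      congr 1
    have h0 : Complex.exp (((0:ℝ):ℂ) * z) = 1 := by simp
    have hmp : Complex.exp (-z) * Complex.exp z = 1 := by
      rw [← Complex.exp_add]
      simp
    rw [hm, hp, h0]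
    push_cast
    have hI2 : I ^ 2 = -1 := I_sq
    have e3 : ((Complex.exp (-z) - Complex.exp z) * I / 2) ^ 2 = -((Complex.exp (-z) - Complex.exp z) ^ 2) / 4 := by
      rw [div_pow, mul_pow, hI2]
      ring
    rw [e3]
    set u := Complex.exp (-z)
    set v := Complex.exp z
    field_simp
    have : (u - v) ^ 2 = u ^ 2 + v ^ 2 - 2 := by
      linear_combination (-2) * hmp
    linear_combination (-1:ℂ) * this

/-- the Fourier transform of the kernel -/
noncomputable def w0 (a : ℝ) : ℂ := ((tri a : ℝ) : ℂ) * (1 + Complex.exp (-(a * (Real.pi / 2 : ℝ) * I))) / 4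

lemma w0_cont : Continuous w0 := by
  have := tri_cont
  unfold w0
  fun_prop

lemma w0_zero {a : ℝ} (h : 2 ≤ |a|) : w0 a = 0 := by
  unfold w0
  rw [tri_zero h]
  simp

lemma w0_norm (a : ℝ) : ‖w0 a‖ ≤ 1 := by
  unfold w0
  rw [norm_div, norm_mul, Complex.norm_real, Real.norm_of_nonneg (tri_nonneg a)]
  have e : -((a : ℂ) * (Real.pi / 2 : ℝ) * I) = ((-(a * (Real.pi / 2)) : ℝ) : ℂ) * I := by push_cast; ring
  have h1 : ‖1 + Complex.exp (-((a : ℂ) * (Real.pi / 2 : ℝ) * I))‖ ≤ 2 := by
    refine (norm_add_le _ _).trans ?_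
    rw [e, Complex.norm_exp_ofReal_mul_I]
    norm_num
  have h2 := mul_le_mul (tri_le a) h1 (norm_nonneg _) (by norm_num : (0:ℝ) ≤ 2)
  rw [show ‖(4:ℂ)‖ = 4 by norm_num, div_le_one (by norm_num)]
  linarith

lemma w0_supp : HasCompactSupport w0 := by
  refine HasCompactSupport.intro (isCompact_Icc (a := (-2:ℝ)) (b := 2)) fun a ha => ?_
  refine w0_zero ?_
  by_contra h
  push Not at h
  rw [abs_lt] at h
  exact ha ⟨h.1.le, h.2.le⟩

lemma w0_int : Integrable w0 := w0_cont.integrable_of_hasCompactSupport w0_supp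

lemma tri_int : Integrable tri := by
  refine tri_cont.integrable_of_hasCompactSupport ?_
  refine HasCompactSupport.intro (isCompact_Icc (a := (-2:ℝ)) (b := 2)) fun a ha => ?_
  refine tri_zero ?_
  by_contra h
  push Not at h
  rw [abs_lt] at h
  exact ha ⟨h.1.le, h.2.le⟩

lemma exp_norm1 (t : ℝ) (z : ℂ) (hz : z = (t:ℂ) * I) : ‖Complex.exp z‖ = 1 := by
  rw [hz, Complex.norm_exp_ofReal_mul_I]

lemma k0_fourier (x : ℝ) : ∫ a : ℝ, w0 a * Complex.exp (a * x * I) = ((k0 x : ℝ) : ℂ) := by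
  have hi : ∀ y : ℝ, Integrable fun a : ℝ => ((tri a : ℝ) : ℂ) * Complex.exp (a * y * I) := by
    intro y
    refine (tri_int.ofReal (𝕜 := ℂ)).mul_bdd (c := 1) (by fun_prop) (Eventually.of_forall fun a => ?_)
    rw [exp_norm1 (a * y) _ (by push_cast; ring)]
  have h1 : ∀ a : ℝ, w0 a * Complex.exp (a * x * I) = (1 / 4) * (((tri a : ℝ) : ℂ) * Complex.exp (a * x * I)) +
      (1 / 4) * (((tri a : ℝ) : ℂ) * Complex.exp (a * ((x - Real.pi / 2 : ℝ) : ℂ) * I)) := by
    intro a
    unfold w0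
    have : Complex.exp (a * ((x - Real.pi / 2 : ℝ) : ℂ) * I) =
        Complex.exp (-(a * (Real.pi / 2 : ℝ) * I)) * Complex.exp (a * x * I) := by
      rw [← Complex.exp_add]
      congr 1
      push_cast
      ring
    rw [this]
    ring
  simp_rw [h1]
  rw [integral_add ((hi x).const_mul _) ((hi _).const_mul _), integral_const_mul, integral_const_mul, tri_fourier,
    tri_fourier]
  unfold k0
  push_cast
  ring

open FourierTransform in
lemma k0_inv (η : ℝ) : ∫ x : ℝ, ((k0 x : ℝ) : ℂ) * Complex.exp (η * x * I) = 2 * Real.pi * w0 (-η) := by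
  have hpi : (2 * Real.pi) ≠ 0 := by positivity
  have hF : 𝓕 w0 = fun w : ℝ => ((k0 (-(2 * Real.pi) * w) : ℝ) : ℂ) := by
    funext w
    rw [Real.fourier_real_eq_integral_exp_smul, ← k0_fourier]
    refine integral_congr_ae (Eventually.of_forall fun v => ?_)
    simp only [smul_eq_mul]
    rw [mul_comm]
    congr 2
    push_cast
    ring
  have hFi : Integrable (𝓕 w0) := by
    rw [hF]
    have h1 : Integrable fun w : ℝ => k0 (-(2 * Real.pi) * w) := k0_int.comp_mul_left' (by simpa using hpi)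
    exact h1.ofReal
  have h := congrFun (w0_cont.fourierInv_fourier_eq w0_int hFi) (-η)
  rw [← h, hF, Real.fourierInv_eq']
  have h2 := Measure.integral_comp_mul_left (fun x : ℝ => ((k0 x : ℝ) : ℂ) * Complex.exp (η * x * I)) (-(2 * Real.pi))
  have h3 : ∫ v : ℝ, Complex.exp (((2 * Real.pi * inner ℝ v (-η) : ℝ) : ℂ) * I) • ((k0 (-(2 * Real.pi) * v) : ℝ) : ℂ) =
      ∫ x : ℝ, ((k0 (-(2 * Real.pi) * x) : ℝ) : ℂ) * Complex.exp (η * ((-(2 * Real.pi) * x : ℝ) : ℂ) * I) := by
    refine integral_congr_ae (Eventually.of_forall fun v => ?_)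
    simp only [smul_eq_mul]
    rw [mul_comm]
    congr 2
    have : inner ℝ v (-η) = -(v * η) := by
      simp [mul_comm]
    rw [this]
    push_cast
    ring
  rw [h3, h2]
  rw [abs_inv, abs_neg, abs_of_pos (by positivity : (0:ℝ) < 2 * Real.pi), real_smul]
  have : (Real.pi : ℂ) ≠ 0 := by exact_mod_cast Real.pi_ne_zero
  generalize ∫ x : ℝ, ((k0 x : ℝ) : ℂ) * Complex.exp (η * x * I) = J
  push_cast
  field_simp

end Run7.h42.LP
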