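import Pool.Agent.Run7.h42.LP.KerA

set_option autoImplicit false

/-!
# Joint large deviations of zeta at arbitrary shifts (helper42): the kernel in several variables, approximate identities
-/

namespace Run7.h42.LP

open Finset Filter MeasureTheory Topology Complex
open Pool.Agent.N748.MG.LLT (k0 k0_cont k0_pos k0_ge k0_le k0_int)

variable {m : ℕ}

/-- the kernel -/
noncomputable def KK (x : Fin m → ℝ) : ℝ := ∏ j, k0 (x j)

/-- its Fourier transform -/
noncomputable def WW (a : Fin m → ℝ) : ℂ := ∏ j, w0 (a j)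

/-- the characters -/
noncomputable def ee (ξ x : Fin m → ℝ) : ℂ := Complex.exp (((∑ j, ξ j * x j : ℝ) : ℂ) * I)

/-- the characteristic function -/
noncomputable def cf (ν : Measure (Fin m → ℝ)) (ξ : Fin m → ℝ) : ℂ := ∫ x, ee ξ x ∂ν

lemma ee_prod (ξ x : Fin m → ℝ) : ee ξ x = ∏ j, Complex.exp (ξ j * x j * I) := by
  unfold ee
  rw [← Complex.exp_sum]
  congr 1
  push_cast
  rw [Finset.sum_mul]

lemma ee_norm (ξ x : Fin m → ℝ) : ‖ee ξ x‖ = 1 := by
  unfold ee
  rw [Complex.norm_exp_ofReal_mul_I]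

lemma ee_add (a ξ x : Fin m → ℝ) : ee (a + ξ) x = ee a x * ee ξ x := by
  have h : ∑ j, (a + ξ) j * x j = ∑ j, a j * x j + ∑ j, ξ j * x j := by
    rw [← Finset.sum_add_distrib]
    refine Finset.sum_congr rfl fun j _ => ?_
    rw [Pi.add_apply, add_mul]
  unfold ee
  rw [h, ← Complex.exp_add, ← add_mul, ← Complex.ofReal_add]

lemma ee_cont : Continuous fun p : (Fin m → ℝ) × (Fin m → ℝ) => ee p.1 p.2 := by
  unfold ee
  fun_prop

lemma ee_cont1 (x : Fin m → ℝ) : Continuous fun ξ : Fin m → ℝ => ee ξ x := by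
  unfold ee
  fun_prop

lemma ee_cont2 (ξ : Fin m → ℝ) : Continuous fun x : Fin m → ℝ => ee ξ x := by
  unfold ee
  fun_prop

lemma KK_cont : Continuous (KK (m := m)) := by
  have := k0_cont
  unfold KK
  fun_prop

lemma KK_pos (x : Fin m → ℝ) : 0 < KK x := prod_pos fun j _ => k0_pos _

lemma k0_le' (x : ℝ) : k0 x ≤ 14 := by
  refine (k0_le x).trans ?_
  have h1 : (1 + x ^ 2)⁻¹ ≤ 1 := inv_le_one_of_one_le₀ (by nlinarith [sq_nonneg x])
  linarith

lemma KK_le (x : Fin m → ℝ) : KK x ≤ 14 ^ m := by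
  unfold KK
  calc ∏ j, k0 (x j) ≤ ∏ _j : Fin m, (14:ℝ) := prod_le_prod (fun j _ => (k0_pos _).le) fun j _ => k0_le' _
    _ = 14 ^ m := by simp

lemma KK_int : Integrable (KK (m := m)) := by
  unfold KK
  exact Integrable.fintype_prod (f := fun _ : Fin m => k0) fun _ => k0_int

lemma KK_ge (x : Fin m → ℝ) : 1 ≤ 6 ^ m * (KK x * ∏ j, (1 + x j ^ 2)) := by
  unfold KK
  rw [← prod_mul_distrib]
  have e : (6:ℝ) ^ m = ∏ _j : Fin m, (6:ℝ) := by simp
  rw [e, ← prod_mul_distrib]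
  calc (1:ℝ) = ∏ _j : Fin m, (1:ℝ) := by simp
    _ ≤ ∏ j : Fin m, (6 * (k0 (x j) * (1 + x j ^ 2))) := by
        refine prod_le_prod (fun _ _ => zero_le_one) fun j _ => ?_
        have := k0_ge (x j)
        linarith

lemma WW_cont : Continuous (WW (m := m)) := by
  have := w0_cont
  unfold WW
  fun_prop

lemma WW_norm (a : Fin m → ℝ) : ‖WW a‖ ≤ 1 := by
  unfold WW
  rw [norm_prod]
  exact prod_le_one (fun j _ => norm_nonneg _) fun j _ => w0_norm _

lemma WW_int : Integrable (WW (m := m)) := by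
  unfold WW
  exact Integrable.fintype_prod (f := fun _ : Fin m => w0) fun _ => w0_int

lemma WW_zero {a : Fin m → ℝ} {j : Fin m} (h : 2 ≤ |a j|) : WW a = 0 :=
  prod_eq_zero (mem_univ j) (w0_zero h)

lemma KK_fourier (x : Fin m → ℝ) : ∫ a : Fin m → ℝ, WW a * ee a x = ((KK x : ℝ) : ℂ) := by
  have h1 : ∀ a : Fin m → ℝ, WW a * ee a x = ∏ j, (w0 (a j) * Complex.exp (a j * x j * I)) := by
    intro a
    rw [ee_prod, prod_mul_distrib]
    rfl
  simp_rw [h1]
  rw [integral_fintype_prod_volume_eq_prod (fun j (a : ℝ) => w0 a * Complex.exp (a * x j * I))]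
  unfold KK
  push_cast
  exact prod_congr rfl fun j _ => k0_fourier (x j)

lemma KK_inv (η : Fin m → ℝ) : ∫ x : Fin m → ℝ, ((KK x : ℝ) : ℂ) * ee η x = (2 * Real.pi) ^ m * WW (-η) := by
  have h1 : ∀ x : Fin m → ℝ, ((KK x : ℝ) : ℂ) * ee η x = ∏ j, (((k0 (x j) : ℝ) : ℂ) * Complex.exp (η j * x j * I)) := by
    intro x
    rw [ee_prod, prod_mul_distrib]
    unfold KK
    push_cast
    rfl
  simp_rw [h1]
  rw [integral_fintype_prod_volume_eq_prod (fun j (x : ℝ) => ((k0 x : ℝ) : ℂ) * Complex.exp (η j * x * I))]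
  unfold WW
  rw [← Fin.prod_const m (2 * (Real.pi:ℂ)), ← prod_mul_distrib]
  exact prod_congr rfl fun j _ => k0_inv (η j)

lemma cf_norm (ν : Measure (Fin m → ℝ)) [IsFiniteMeasure ν] (ξ : Fin m → ℝ) : ‖cf ν ξ‖ ≤ ν.real Set.univ := by
  unfold cf
  refine (norm_integral_le_integral_norm _).trans (le_of_eq ?_)
  simp_rw [ee_norm]
  simp

lemma cf_cont (ν : Measure (Fin m → ℝ)) [IsFiniteMeasure ν] : Continuous (cf ν) := by
  unfold cf
  refine continuous_of_dominated (bound := fun _ => 1) (fun ξ => (ee_cont2 ξ).aestronglyMeasurable)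
    (fun ξ => Eventually.of_forall fun x => (ee_norm ξ x).le) (integrable_const _)
    (Eventually.of_forall fun x => ee_cont1 x)

lemma fub (ν : Measure (Fin m → ℝ)) [IsFiniteMeasure ν] (η : Fin m → ℝ) :
    ∫ x, ((KK x : ℝ) : ℂ) * ee η x ∂ν = ∫ a, WW a * cf ν (a + η) := by
  have hI : Integrable (Function.uncurry fun (x a : Fin m → ℝ) => WW a * ee (a + η) x) (ν.prod volume) := by
    have h1 : Integrable (fun p : (Fin m → ℝ) × (Fin m → ℝ) => (1:ℂ) * WW p.2) (ν.prod volume) :=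
      (integrable_const (1:ℂ)).mul_prod WW_int
    refine h1.mono ?_ (Eventually.of_forall fun p => ?_)
    · apply Continuous.aestronglyMeasurable
      have h2 := WW_cont (m := m)
      have h3 := ee_cont (m := m)
      simp only [Function.uncurry_def]
      exact (h2.comp continuous_snd).mul (h3.comp (by fun_prop :
        Continuous fun p : (Fin m → ℝ) × (Fin m → ℝ) => (p.2 + η, p.1)))
    · simp only [Function.uncurry_def]
      rw [norm_mul, ee_norm, mul_one, one_mul]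
  calc ∫ x, ((KK x : ℝ) : ℂ) * ee η x ∂ν = ∫ x, (∫ a : Fin m → ℝ, WW a * ee (a + η) x) ∂ν := by
        refine integral_congr_ae (Eventually.of_forall fun x => ?_)
        simp only
        rw [← KK_fourier, ← integral_mul_const]
        refine integral_congr_ae (Eventually.of_forall fun a => ?_)
        simp only
        rw [ee_add, mul_assoc]
    _ = ∫ a : Fin m → ℝ, (∫ x, WW a * ee (a + η) x ∂ν) := integral_integral_swap hI
    _ = ∫ a, WW a * cf ν (a + η) := by
        refine integral_congr_ae (Eventually.of_forall fun a => ?_)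
        simp only
        rw [integral_const_mul]
        rfl

/-! ### Gaussian integrals -/

lemma gs_eq (b : ℝ) (ξ : Fin m → ℝ) : Real.exp (-(b * ∑ j, ξ j ^ 2)) = ∏ j, Real.exp (-b * ξ j ^ 2) := by
  rw [← Real.exp_sum]
  congr 1
  rw [Finset.mul_sum, ← Finset.sum_neg_distrib]
  exact Finset.sum_congr rfl fun j _ => by ring

lemma gs_int {b : ℝ} (hb : 0 < b) : Integrable fun ξ : Fin m → ℝ => Real.exp (-(b * ∑ j, ξ j ^ 2)) := by
  simp_rw [gs_eq]
  exact Integrable.fintype_prod (f := fun _ : Fin m => fun x : ℝ => Real.exp (-b * x ^ 2))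
    fun _ => integrable_exp_neg_mul_sq hb

lemma gs_val (b : ℝ) : ∫ ξ : Fin m → ℝ, Real.exp (-(b * ∑ j, ξ j ^ 2)) = Real.sqrt (Real.pi / b) ^ m := by
  simp_rw [gs_eq]
  rw [integral_fintype_prod_volume_eq_pow (fun x : ℝ => Real.exp (-b * x ^ 2)), integral_gaussian, Fintype.card_fin]

/-- the Gaussian integral of a form -/
noncomputable def IT (q : (Fin m → ℝ) → ℝ) : ℝ := ∫ ξ, Real.exp (-(q ξ / 4))

/-- the forms between two multiples of the sum of squares -/
structure Fm (q : (Fin m → ℝ) → ℝ) (c C L : ℝ) : Prop where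
  cont : Continuous q
  low : ∀ ξ, c * (L * ∑ j, ξ j ^ 2) ≤ q ξ
  up : ∀ ξ, q ξ ≤ C * (L * ∑ j, ξ j ^ 2)

lemma Fm.int {q : (Fin m → ℝ) → ℝ} {c C L : ℝ} (h : Fm q c C L) (hc : 0 < c) (hL : 0 < L) :
    Integrable fun ξ => Real.exp (-(q ξ / 4)) := by
  have h1 := gs_int (m := m) (b := c * L / 4) (by positivity)
  refine h1.mono' ?_ (Eventually.of_forall fun ξ => ?_)
  · have := h.cont
    apply Continuous.aestronglyMeasurable
    fun_prop
  · rw [Real.norm_of_nonneg (Real.exp_pos _).le]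
    apply Real.exp_le_exp.2
    have := h.low ξ
    linarith

lemma Fm.ge {q : (Fin m → ℝ) → ℝ} {c C L : ℝ} (h : Fm q c C L) (hc : 0 < c) (hC : 0 < C) (hL : 0 < L) :
    Real.sqrt (Real.pi / (C * L / 4)) ^ m ≤ IT q := by
  rw [← gs_val]
  refine integral_mono (gs_int (by positivity)) (h.int hc hL) fun ξ => ?_
  apply Real.exp_le_exp.2
  have := h.up ξ
  linarith

lemma Fm.pos {q : (Fin m → ℝ) → ℝ} {c C L : ℝ} (h : Fm q c C L) (hc : 0 < c) (hC : 0 < C) (hL : 0 < L) : 0 < IT q :=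
  lt_of_lt_of_le (pow_pos (Real.sqrt_pos.2 (by positivity)) _) (h.ge hc hC hL)

/-- one step of the approximate identity -/
lemma step {q : (Fin m → ℝ) → ℝ} {c C L : ℝ} (h : Fm q c C L) (hc : 0 < c) (hC : 0 < C) (hL : 0 < L)
    (F : (Fin m → ℝ) → ℂ) (hF : Continuous F) (hFb : ∃ M : ℝ, ∀ ξ, ‖F ξ‖ ≤ M) (η : Fin m → ℝ) {e r B : ℝ} (he : 0 ≤ e)
    (hr : 0 < r) (hB : 0 ≤ B)
    (h1 : ∀ ξ, (∀ j, |ξ j| ≤ r) → ‖F ξ - Real.exp (-(q ξ / 4))‖ ≤ e * Real.exp (-(q ξ / 4)))
    (h2 : ∀ ξ, (∀ j, |ξ j - η j| ≤ 2) → ‖F ξ‖ ≤ B * Real.exp (-(q ξ / 4)))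
    (h3 : ∀ ξ : Fin m → ℝ, (∀ j, |ξ j| ≤ r) → ‖WW (ξ - η) - WW (-η)‖ ≤ e) :
    ‖(∫ a, WW a * F (a + η)) - WW (-η) * IT q‖ ≤ 2 * e * IT q +
      (B + 1) * Real.exp (-(c * L * r ^ 2 / 8)) * Real.sqrt (Real.pi / (c * L / 8)) ^ m := by
  obtain ⟨M, hM⟩ := hFb
  have hZi := h.int hc hL
  have e1 : ∫ a, WW a * F (a + η) = ∫ b, WW (b - η) * F b := by
    rw [← integral_add_right_eq_self (fun b : Fin m → ℝ => WW (b - η) * F b) η]
    refine integral_congr_ae (Eventually.of_forall fun a => ?_)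
    simp only [add_sub_cancel_right]
  have e2 : WW (-η) * (IT q : ℂ) = ∫ b : Fin m → ℝ, WW (-η) * ((Real.exp (-(q b / 4)) : ℝ) : ℂ) := by
    rw [integral_const_mul]
    congr 1
    unfold IT
    rw [← integral_complex_ofReal]
  have i1 : Integrable fun b : Fin m → ℝ => WW (b - η) * F b := by
    refine (WW_int.comp_sub_right η).mul_bdd (c := M) hF.aestronglyMeasurable (Eventually.of_forall hM)
  have i2 : Integrable fun b : Fin m → ℝ => WW (-η) * ((Real.exp (-(q b / 4)) : ℝ) : ℂ) :=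
    (hZi.ofReal (𝕜 := ℂ)).const_mul _
  rw [e1, e2, ← integral_sub i1 i2]
  have hg := gs_int (m := m) (b := c * L / 8) (by positivity)
  have hbi : Integrable fun b : Fin m → ℝ => 2 * e * Real.exp (-(q b / 4)) +
      (B + 1) * Real.exp (-(c * L * r ^ 2 / 8)) * Real.exp (-(c * L / 8 * ∑ j, b j ^ 2)) :=
    (hZi.const_mul _).add (hg.const_mul _)
  refine (norm_integral_le_of_norm_le hbi (Eventually.of_forall fun b => ?_)).trans (le_of_eq ?_)
  · set Z := Real.exp (-(q b / 4)) with hZ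
    have hZ0 : 0 < Z := Real.exp_pos _
    have hE0 : 0 < (B + 1) * Real.exp (-(c * L * r ^ 2 / 8)) * Real.exp (-(c * L / 8 * ∑ j, b j ^ 2)) := by positivity
    by_cases hb : ∀ j, |b j| ≤ r
    · have g1 := h1 b hb
      have g3 := h3 b hb
      have g4 : WW (b - η) * F b - WW (-η) * ((Z : ℝ) : ℂ) =
          WW (b - η) * (F b - ((Z : ℝ) : ℂ)) + (WW (b - η) - WW (-η)) * ((Z : ℝ) : ℂ) := by ring
      rw [g4]
      refine (norm_add_le _ _).trans ?_
      rw [norm_mul, norm_mul, Complex.norm_real, Real.norm_of_nonneg hZ0.le]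
      have g5 : ‖WW (b - η)‖ * ‖F b - ((Z : ℝ) : ℂ)‖ ≤ 1 * (e * Z) :=
        mul_le_mul (WW_norm _) g1 (norm_nonneg _) zero_le_one
      have g6 : ‖WW (b - η) - WW (-η)‖ * Z ≤ e * Z := mul_le_mul_of_nonneg_right g3 hZ0.le
      linarith
    · push Not at hb
      obtain ⟨j, hj⟩ := hb
      have g1 : ‖WW (b - η) * F b‖ ≤ B * Z := by
        by_cases hs : ∀ j, |b j - η j| ≤ 2
        · rw [norm_mul]
          have := mul_le_mul (WW_norm (b - η)) (h2 b hs) (norm_nonneg _) zero_le_one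
          linarith
        · push Not at hs
          obtain ⟨i, hi⟩ := hs
          have : WW (b - η) = 0 := WW_zero (j := i) (by
            simp only [Pi.sub_apply]
            exact hi.le)
          rw [this, zero_mul, norm_zero]
          positivity
      have g2 : ‖WW (-η) * ((Z : ℝ) : ℂ)‖ ≤ Z := by
        rw [norm_mul, Complex.norm_real, Real.norm_of_nonneg hZ0.le]
        exact mul_le_of_le_one_left hZ0.le (WW_norm _)
      have g3 : Z ≤ Real.exp (-(c * L * r ^ 2 / 8)) * Real.exp (-(c * L / 8 * ∑ j, b j ^ 2)) := by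
        rw [hZ, ← Real.exp_add]
        apply Real.exp_le_exp.2
        have k1 := h.low b
        have k2 : r ^ 2 ≤ ∑ j, b j ^ 2 := by
          have k3 : r ^ 2 ≤ b j ^ 2 := by
            rw [← sq_abs (b j)]
            exact pow_le_pow_left₀ hr.le hj.le 2
          exact k3.trans (Finset.single_le_sum (f := fun j => b j ^ 2) (fun i _ => sq_nonneg _) (mem_univ j))
        have k4 := mul_le_mul_of_nonneg_left k2 (by positivity : 0 ≤ c * L)
        have k5 : c * (L * ∑ j, b j ^ 2) = c * L * ∑ j, b j ^ 2 := by ring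
        rw [k5] at k1
        linarith
      have g4 : (B + 1) * Z ≤ (B + 1) * (Real.exp (-(c * L * r ^ 2 / 8)) * Real.exp (-(c * L / 8 * ∑ j, b j ^ 2))) :=
        mul_le_mul_of_nonneg_left g3 (by linarith)
      have g5 := norm_sub_le (WW (b - η) * F b) (WW (-η) * ((Z : ℝ) : ℂ))
      have g6 : 0 ≤ 2 * e * Z := by positivity
      calc ‖WW (b - η) * F b - WW (-η) * ((Z : ℝ) : ℂ)‖ ≤ (B + 1) * Z := by linarith
        _ ≤ _ := by
            rw [mul_assoc (B + 1)]
            linarith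
  · rw [integral_add (hZi.const_mul _) (hg.const_mul _), integral_const_mul, integral_const_mul, gs_val]
    rfl

end Run7.h42.LP
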