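import Pool.Agent.Run7.h42.LP.KerB

set_option autoImplicit false

/-!
# Joint large deviations of zeta at arbitrary shifts (helper42): the local limit theorem in several variables
-/

namespace Run7.h42.LP

open Finset Filter MeasureTheory Topology Complex
open Pool.Agent.N748.MG.LLT (k0 k0_cont k0_pos k0_ge k0_le k0_int)
open Pool.Agent.N748.MJ.LLT2 (fm_ae fm_tendstoE)

variable {m : ℕ}

/-- the hypotheses of the local limit theorem -/
structure LH (ν : ℝ → Measure (Fin m → ℝ)) (q : ℝ → (Fin m → ℝ) → ℝ) (L : ℝ → ℝ) (c C : ℝ) : Prop where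
  fin : ∀ᶠ T in atTop, IsFiniteMeasure (ν T)
  c0 : 0 < c
  C0 : 0 < C
  tL : Tendsto L atTop atTop
  fm : ∀ᶠ T in atTop, Fm (q T) c C (L T)
  bd : ∀ R : ℝ, 0 < R → ∃ B : ℝ, 0 ≤ B ∧ ∀ᶠ T in atTop, ∀ ξ : Fin m → ℝ, (∀ j, |ξ j| ≤ R) →
    ‖cf (ν T) ξ‖ ≤ B * Real.exp (-(q T ξ / 4))
  near : ∀ e : ℝ, 0 < e → ∃ r : ℝ, 0 < r ∧ ∀ᶠ T in atTop, ∀ ξ : Fin m → ℝ, (∀ j, |ξ j| ≤ r) →
    ‖cf (ν T) ξ - Real.exp (-(q T ξ / 4))‖ ≤ e * Real.exp (-(q T ξ / 4))

/-- the normalising factor -/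
noncomputable def AN (q : (Fin m → ℝ) → ℝ) : ℝ := (2 * Real.pi) ^ m / IT q

lemma WW_near (η : Fin m → ℝ) {e : ℝ} (he : 0 < e) :
    ∃ r : ℝ, 0 < r ∧ ∀ ξ : Fin m → ℝ, (∀ j, |ξ j| ≤ r) → ‖WW (ξ - η) - WW (-η)‖ ≤ e := by
  have h1 : Continuous fun ξ : Fin m → ℝ => WW (ξ - η) := WW_cont.comp (by fun_prop)
  have h2 := (Metric.continuousAt_iff.mp (h1.continuousAt (x := 0))) e he
  obtain ⟨d, hd, h3⟩ := h2
  refine ⟨d / 2, by positivity, fun ξ hξ => ?_⟩
  have h4 : dist ξ 0 < d := by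
    refine lt_of_le_of_lt ?_ (half_lt_self hd)
    rw [dist_pi_le_iff (by positivity)]
    intro j
    rw [Pi.zero_apply, Real.dist_eq, sub_zero]
    exact hξ j
  have h5 := h3 h4
  rw [zero_sub, dist_eq_norm] at h5
  exact h5.le

theorem key {ν : ℝ → Measure (Fin m → ℝ)} {q : ℝ → (Fin m → ℝ) → ℝ} {L : ℝ → ℝ} {c C : ℝ} (h : LH ν q L c C)
    (η : Fin m → ℝ) : Tendsto (fun T => ((AN (q T) : ℝ) : ℂ) * ∫ x, ((KK x : ℝ) : ℂ) * ee η x ∂(ν T)) atTop
      (𝓝 (∫ x, ((KK x : ℝ) : ℂ) * ee η x)) := by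
  rw [KK_inv, Metric.tendsto_nhds]
  intro ε hε
  have hc := h.c0
  have hC := h.C0
  set P : ℝ := (2 * Real.pi) ^ m with hP
  have hP0 : 0 < P := by positivity
  set e : ℝ := ε / (4 * P) with he
  have he0 : 0 < e := by positivity
  obtain ⟨r1, hr1, h1⟩ := h.near e he0
  obtain ⟨r2, hr2, h2⟩ := WW_near η he0
  set r := min r1 r2 with hr
  have hr0 : 0 < r := lt_min hr1 hr2
  set R : ℝ := 3 + ∑ j, |η j| with hR
  have hR0 : 0 < R := by
    have : 0 ≤ ∑ j, |η j| := Finset.sum_nonneg fun j _ => abs_nonneg _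
    linarith
  obtain ⟨B, hB, h3⟩ := h.bd R hR0
  set S : ℝ := Real.sqrt (2 * C / c) ^ m with hS
  have hlim : Tendsto (fun T => P * ((B + 1) * Real.exp (-(c * L T * r ^ 2 / 8)) * S)) atTop (𝓝 0) := by
    have g1 : Tendsto (fun T => c * L T * r ^ 2 / 8) atTop atTop := by
      have : (fun T => c * L T * r ^ 2 / 8) = fun T => (c * r ^ 2 / 8) * L T := by
        funext T
        ring
      rw [this]
      exact h.tL.const_mul_atTop (by positivity)
    have g2 := (Real.tendsto_exp_neg_atTop_nhds_zero.comp g1).const_mul (P * (B + 1) * S)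
    rw [mul_zero] at g2
    refine g2.congr fun T => ?_
    simp only [Function.comp]
    ring
  filter_upwards [h.fin, h.fm, h.tL.eventually_gt_atTop 0, h1, h3, hlim.eventually_lt_const (u := ε / 4) (by positivity)]
    with T f1 f2 f3 f4 f5 f6
  have hI := f2.pos hc hC f3
  have hst := step f2 hc hC f3 (cf (ν T)) (cf_cont _) ⟨_, fun ξ => cf_norm _ ξ⟩ η (e := e) (r := r) (B := B) he0.le hr0 hB
    (fun ξ hξ => f4 ξ fun j => (hξ j).trans (min_le_left _ _))
    (fun ξ hξ => f5 ξ fun j => by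
      have g1 : |ξ j| ≤ |ξ j - η j| + |η j| := by
        have := abs_add_le (ξ j - η j) (η j)
        rwa [sub_add_cancel] at this
      have g2 : |η j| ≤ ∑ i, |η i| := Finset.single_le_sum (f := fun i => |η i|) (fun i _ => abs_nonneg _) (mem_univ j)
      have := hξ j
      rw [hR]
      linarith)
    (fun ξ hξ => h2 ξ fun j => (hξ j).trans (min_le_right _ _))
  rw [fub, dist_eq_norm]
  have e0 : (IT (q T) : ℂ) ≠ 0 := by exact_mod_cast hI.ne'
  have e1 : ((AN (q T) : ℝ) : ℂ) * (∫ a, WW a * cf (ν T) (a + η)) - (2 * (Real.pi:ℂ)) ^ m * WW (-η) =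
      ((AN (q T) : ℝ) : ℂ) * ((∫ a, WW a * cf (ν T) (a + η)) - WW (-η) * IT (q T)) := by
    have : (((2 * Real.pi) ^ m : ℝ) : ℂ) = (2 * (Real.pi:ℂ)) ^ m := by push_cast; rfl
    rw [mul_sub, AN, Complex.ofReal_div, this]
    field_simp
  rw [e1, norm_mul, Complex.norm_real]
  have hA0 : 0 < AN (q T) := div_pos hP0 hI
  rw [Real.norm_of_nonneg hA0.le]
  have g1 := mul_le_mul_of_nonneg_left hst hA0.le
  refine lt_of_le_of_lt g1 ?_
  have g2 : AN (q T) * (2 * e * IT (q T)) = ε / 2 := by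
    rw [AN, ← hP, he]
    field_simp
    ring
  have g3 : AN (q T) * Real.sqrt (Real.pi / (c * L T / 8)) ^ m ≤ P * S := by
    have k1 := f2.ge hc hC f3
    have k2 : Real.sqrt (Real.pi / (c * L T / 8)) ^ m = S * Real.sqrt (Real.pi / (C * L T / 4)) ^ m := by
      rw [hS, ← mul_pow, ← Real.sqrt_mul (by positivity)]
      congr 2
      field_simp
      ring
    have k3 : 0 ≤ S := by positivity
    rw [k2, AN, ← hP]
    rw [div_mul_eq_mul_div, div_le_iff₀ hI]
    have k4 := mul_le_mul_of_nonneg_left k1 k3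
    have k5 := mul_le_mul_of_nonneg_left k4 hP0.le
    linarith
  rw [mul_add, g2]
  have g4 : AN (q T) * ((B + 1) * Real.exp (-(c * L T * r ^ 2 / 8)) * Real.sqrt (Real.pi / (c * L T / 8)) ^ m) ≤
      P * ((B + 1) * Real.exp (-(c * L T * r ^ 2 / 8)) * S) := by
    have k1 : 0 ≤ (B + 1) * Real.exp (-(c * L T * r ^ 2 / 8)) := by positivity
    have k2 := mul_le_mul_of_nonneg_left g3 k1
    linarith
  linarith

/-- the map to the Euclidean space -/
noncomputable def tl (x : Fin m → ℝ) : EuclideanSpace ℝ (Fin m) := WithLp.toLp 2 x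

lemma tl_meas : Measurable (tl (m := m)) := WithLp.measurable_toLp 2 _

lemma tl_cf (κ : Measure (Fin m → ℝ)) (t : EuclideanSpace ℝ (Fin m)) :
    charFun (κ.map tl) t = cf κ (WithLp.ofLp t) := by
  rw [charFun_apply, integral_map tl_meas.aemeasurable]
  · refine integral_congr_ae (Eventually.of_forall fun x => ?_)
    simp only [ee, tl]
    congr 2
  · apply Continuous.aestronglyMeasurable
    fun_prop

lemma wdi {F : Type} [NormedAddCommGroup F] [NormedSpace ℝ F] (κ : Measure (Fin m → ℝ)) {D : (Fin m → ℝ) → ℝ}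
    (hD : Measurable D) (hD0 : ∀ z, 0 ≤ D z) (f : (Fin m → ℝ) → F) :
    ∫ z, f z ∂(κ.withDensity fun z => ENNReal.ofReal (D z)) = ∫ z, D z • f z ∂κ := by
  rw [integral_withDensity_eq_integral_toReal_smul]
  · refine integral_congr_ae (Eventually.of_forall fun z => ?_)
    simp only
    rw [ENNReal.toReal_ofReal (hD0 z)]
  · fun_prop
  · exact Eventually.of_forall fun z => ENNReal.ofReal_lt_top

/-- the sequential version -/
theorem seqm (ν : ℕ → Measure (Fin m → ℝ)) (hf : ∀ n, IsFiniteMeasure (ν n)) (A : ℕ → ℝ) (hA : ∀ n, 0 ≤ A n)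
    (hk : ∀ η : Fin m → ℝ, Tendsto (fun n => ((A n : ℝ) : ℂ) * ∫ x, ((KK x : ℝ) : ℂ) * ee η x ∂(ν n)) atTop
      (𝓝 (∫ x, ((KK x : ℝ) : ℂ) * ee η x)))
    (h : (Fin m → ℝ) → ℝ) (S : Set (Fin m → ℝ)) (hS : volume S = 0) (hh : Measurable h)
    (hhc : ∀ x, x ∉ S → ContinuousAt h x) (M : ℝ) (hM : ∀ x, |h x| * ∏ j, (1 + x j ^ 2) ≤ M) :
    Tendsto (fun n => A n * ∫ x, h x ∂(ν n)) atTop (𝓝 (∫ x, h x)) := by
  have hKm : Measurable (KK (m := m)) := KK_cont.measurable
  have hKi : ∀ κ : Measure (Fin m → ℝ), IsFiniteMeasure κ → Integrable KK κ := by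
    intro κ _
    refine Integrable.of_bound KK_cont.aestronglyMeasurable (14 ^ m) (Eventually.of_forall fun x => ?_)
    rw [Real.norm_of_nonneg (KK_pos x).le]
    exact KK_le x
  let μ : ℕ → FiniteMeasure (Fin m → ℝ) := fun n =>
    ⟨(ν n).withDensity fun x => ENNReal.ofReal (A n * KK x),
      isFiniteMeasure_withDensity_ofReal ((hKi (ν n) (hf n)).const_mul (A n)).2⟩
  let μ' : FiniteMeasure (Fin m → ℝ) :=
    ⟨volume.withDensity fun x => ENNReal.ofReal (1 * KK x), isFiniteMeasure_withDensity_ofReal (KK_int.const_mul 1).2⟩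
  have hμ : ∀ (n : ℕ) {F : Type} [NormedAddCommGroup F] [NormedSpace ℝ F] (f : (Fin m → ℝ) → F),
      ∫ x, f x ∂(μ n : Measure (Fin m → ℝ)) = ∫ x, (A n * KK x) • f x ∂(ν n) := by
    intro n F _ _ f
    exact wdi (ν n) (D := fun x => A n * KK x) (hKm.const_mul _) (fun x => mul_nonneg (hA n) (KK_pos x).le) f
  have hμ' : ∀ {F : Type} [NormedAddCommGroup F] [NormedSpace ℝ F] (f : (Fin m → ℝ) → F),
      ∫ x, f x ∂(μ' : Measure (Fin m → ℝ)) = ∫ x, (1 * KK x) • f x := by
    intro F _ _ f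
    exact wdi volume (D := fun x => 1 * KK x) (hKm.const_mul _) (fun x => mul_nonneg zero_le_one (KK_pos x).le) f
  have hne : (μ' : Measure (Fin m → ℝ)) ≠ 0 := by
    intro h0
    have h2 : ∫ _x, (1:ℝ) ∂(μ' : Measure (Fin m → ℝ)) = 0 := by rw [h0]; simp
    rw [hμ'] at h2
    simp only [one_mul, smul_eq_mul, mul_one] at h2
    have h3 : 0 < ∫ x : Fin m → ℝ, KK x := by
      rw [integral_pos_iff_support_of_nonneg (fun x => (KK_pos x).le) KK_int]
      have : Function.support (KK (m := m)) = Set.univ := by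
        ext x
        simp [(KK_pos x).ne']
      rw [this]
      exact isOpen_univ.measure_pos volume Set.univ_nonempty
    linarith
  have hw : Tendsto (fun n => (μ n).map tl) atTop (𝓝 (μ'.map tl)) := by
    refine fm_tendstoE _ _ ?_ fun t => ?_
    · intro h1
      apply hne
      have h2 : ((μ'.map tl : FiniteMeasure (EuclideanSpace ℝ (Fin m))) : Measure (EuclideanSpace ℝ (Fin m))) Set.univ = 0 := by
        rw [h1]
        simp
      rw [FiniteMeasure.toMeasure_map, Measure.map_apply tl_meas MeasurableSet.univ, Set.preimage_univ] at h2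
      exact Measure.measure_univ_eq_zero.mp h2
    · simp_rw [FiniteMeasure.toMeasure_map, tl_cf]
      have h1 := hk (WithLp.ofLp t)
      have h2 : ∀ n, cf (μ n : Measure (Fin m → ℝ)) (WithLp.ofLp t) =
          ((A n : ℝ) : ℂ) * ∫ x, ((KK x : ℝ) : ℂ) * ee (WithLp.ofLp t) x ∂(ν n) := by
        intro n
        rw [cf, hμ, ← integral_const_mul]
        refine integral_congr_ae (Eventually.of_forall fun x => ?_)
        simp only
        rw [real_smul]
        push_cast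
        ring
      have h3 : cf (μ' : Measure (Fin m → ℝ)) (WithLp.ofLp t) = ∫ x, ((KK x : ℝ) : ℂ) * ee (WithLp.ofLp t) x := by
        rw [cf, hμ']
        refine integral_congr_ae (Eventually.of_forall fun x => ?_)
        simp only
        rw [real_smul, one_mul]
      simp_rw [h2, h3]
      exact h1
  have hne' : μ'.map tl ≠ 0 := by
    intro h1
    apply hne
    have h2 : ((μ'.map tl : FiniteMeasure (EuclideanSpace ℝ (Fin m))) : Measure (EuclideanSpace ℝ (Fin m))) Set.univ = 0 := by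
      rw [h1]
      simp
    rw [FiniteMeasure.toMeasure_map, Measure.map_apply tl_meas MeasurableSet.univ, Set.preimage_univ] at h2
    exact Measure.measure_univ_eq_zero.mp h2
  have hgc : ∀ x, x ∉ S → ContinuousAt (fun x => h x / KK x) x := fun x hx =>
    (hhc x hx).div KK_cont.continuousAt (KK_pos x).ne'
  have hgm : Measurable fun x => h x / KK x := hh.div hKm
  have hgb : ∀ x, |h x / KK x| ≤ 6 ^ m * M := by
    intro x
    rw [abs_div, abs_of_pos (KK_pos x), div_le_iff₀ (KK_pos x)]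
    have h1 := KK_ge x
    have h2 := hM x
    have h3 := mul_le_mul_of_nonneg_left h1 (abs_nonneg (h x))
    have h4 : |h x| * (6 ^ m * (KK x * ∏ j, (1 + x j ^ 2))) = (6 ^ m * KK x) * (|h x| * ∏ j, (1 + x j ^ 2)) := by ring
    rw [h4, mul_one] at h3
    have h5 := mul_le_mul_of_nonneg_left h2 (mul_nonneg (by positivity : (0:ℝ) ≤ 6 ^ m) (KK_pos x).le)
    linarith
  have hFm : Measurable fun y : EuclideanSpace ℝ (Fin m) => (fun x => h x / KK x) (WithLp.ofLp y) :=
    hgm.comp (WithLp.measurable_ofLp 2 _)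
  have h6 := fm_ae (fun n => (μ n).map tl) (μ'.map tl) hw hne'
    (fun y : EuclideanSpace ℝ (Fin m) => (fun x => h x / KK x) (WithLp.ofLp y)) hFm (6 ^ m * M) (fun y => hgb _) (by
      rw [FiniteMeasure.toMeasure_map, ae_map_iff tl_meas.aemeasurable (measurableSet_of_continuousAt _)]
      have g1 : (μ' : Measure (Fin m → ℝ)) ≪ volume := withDensity_absolutelyContinuous _ _
      refine g1.ae_le ?_
      have g2 : ∀ᵐ x : Fin m → ℝ ∂volume, x ∉ S := by
        rw [ae_iff]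
        simpa using hS
      filter_upwards [g2] with x hx
      have g3 : ContinuousAt (fun x => h x / KK x) (WithLp.ofLp (tl x)) := hgc x hx
      exact g3.comp (PiLp.continuous_ofLp 2 _).continuousAt)
  have h7 : ∀ κ : FiniteMeasure (Fin m → ℝ), ∫ y, (fun x => h x / KK x) (WithLp.ofLp y)
      ∂(κ.map tl : Measure (EuclideanSpace ℝ (Fin m))) = ∫ x, h x / KK x ∂(κ : Measure (Fin m → ℝ)) := by
    intro κ
    rw [FiniteMeasure.toMeasure_map, integral_map tl_meas.aemeasurable hFm.aestronglyMeasurable]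
    rfl
  simp_rw [h7] at h6
  have h8 : ∀ n, ∫ x, h x / KK x ∂(μ n : Measure (Fin m → ℝ)) = A n * ∫ x, h x ∂(ν n) := by
    intro n
    rw [hμ, ← integral_const_mul]
    refine integral_congr_ae (Eventually.of_forall fun x => ?_)
    have := (KK_pos x).ne'
    simp only [smul_eq_mul]
    field_simp
  have h9 : ∫ x, h x / KK x ∂(μ' : Measure (Fin m → ℝ)) = ∫ x, h x := by
    rw [hμ']
    refine integral_congr_ae (Eventually.of_forall fun x => ?_)
    have := (KK_pos x).ne'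
    simp only [smul_eq_mul]
    field_simp
  rw [h9] at h6
  exact h6.congr fun n => h8 n

/-- the local limit theorem in several variables -/
theorem llt {ν : ℝ → Measure (Fin m → ℝ)} {q : ℝ → (Fin m → ℝ) → ℝ} {L : ℝ → ℝ} {c C : ℝ} (H : LH ν q L c C)
    (h : (Fin m → ℝ) → ℝ) (S : Set (Fin m → ℝ)) (hS : volume S = 0) (hh : Measurable h)
    (hhc : ∀ x, x ∉ S → ContinuousAt h x) (M : ℝ) (hM : ∀ x, |h x| * ∏ j, (1 + x j ^ 2) ≤ M) :
    Tendsto (fun T => AN (q T) * ∫ x, h x ∂(ν T)) atTop (𝓝 (∫ x, h x)) := by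
  refine tendsto_of_seq_tendsto fun u hu => ?_
  have hpos : ∀ᶠ T in atTop, IsFiniteMeasure (ν T) ∧ 0 ≤ AN (q T) := by
    filter_upwards [H.fin, H.fm, H.tL.eventually_gt_atTop 0] with T f1 f2 f3
    exact ⟨f1, div_nonneg (by positivity) (f2.pos H.c0 H.C0 f3).le⟩
  obtain ⟨N, hN⟩ := eventually_atTop.mp (hu.eventually hpos)
  rw [← tendsto_add_atTop_iff_nat N]
  refine seqm (fun n => ν (u (n + N))) (fun n => (hN (n + N) (Nat.le_add_left _ _)).1)
    (fun n => AN (q (u (n + N)))) (fun n => (hN (n + N) (Nat.le_add_left _ _)).2) (fun η => ?_) h S hS hh hhc M hM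
  exact (tendsto_add_atTop_iff_nat (f := fun n => ((AN (q (u n)) : ℝ) : ℂ) *
      ∫ x, ((KK x : ℝ) : ℂ) * ee η x ∂(ν (u n))) N).mpr ((key H η).comp hu)

end Run7.h42.LP
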